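import Mathlib

/-!
Graph bootstrap percolation: definitions and basic facts.
-/

namespace Pool.Agent.R792

open SimpleGraph

/-- One round of the `H`-process on `G`: keep every edge of `G` and add every pair `a b` of
distinct vertices such that `G` plus the edge `a b` has more copies of `H` than `G` has. -/
noncomputable def bootStep {W V : Type} [Fintype V] (H : SimpleGraph W) (G : SimpleGraph V) :
    SimpleGraph V where
  Adj a b := G.Adj a b ∨ (a ≠ b ∧ G.copyCount H < (G ⊔ edge a b).copyCount H)
  symm := ⟨by
    intro a b h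
    rcases h with h | ⟨h1, h2⟩
    · exact Or.inl h.symm
    · exact Or.inr ⟨h1.symm, by rwa [edge_comm]⟩⟩
  loopless := ⟨by
    intro a h
    rcases h with h | ⟨h1, _⟩
    · exact G.loopless.irrefl a h
    · exact h1 rfl⟩

/-- The `t`-th graph of the `H`-process started from `G`. -/
noncomputable def bootProc {W V : Type} [Fintype V] (H : SimpleGraph W) (G : SimpleGraph V)
    (t : ℕ) : SimpleGraph V := (bootStep H)^[t] G

/-- The running time of the `H`-process on `G`: the least `t` with `G_t = G_{t+1}`. -/
noncomputable def runTime {W V : Type} [Fintype V] (H : SimpleGraph W) (G : SimpleGraph V) : ℕ :=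
  sInf {t : ℕ | bootProc H G t = bootProc H G (t + 1)}

/-- The maximum running time `M_H(n)` over all graphs with `n` vertices. -/
noncomputable def maxTime {W : Type} (H : SimpleGraph W) (n : ℕ) : ℕ :=
  ⨆ G : SimpleGraph (Fin n), runTime H G

/-- The graph obtained from `H` by adding one new vertex (`none`) joined only to `u`. -/
def addPendant {W : Type} (H : SimpleGraph W) (u : W) : SimpleGraph (Option W) where
  Adj
    | some a, some b => H.Adj a b
    | some a, none => a = u
    | none, some b => b = u
    | none, none => False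
  symm := ⟨by
    intro a b h
    match a, b with
    | some a, some b => exact H.symm.symm a b h
    | some a, none => exact h
    | none, some b => exact h
    | none, none => exact h⟩
  loopless := ⟨by
    intro a h
    match a with
    | some a => exact H.loopless.irrefl a h
    | none => exact h⟩

/-! ### Basic facts -/

variable {W V : Type}

theorem sup_edge_adj (G : SimpleGraph V) (a b x y : V) :
    (G ⊔ edge a b).Adj x y ↔ G.Adj x y ∨ (x ≠ y ∧ ((x = a ∧ y = b) ∨ (x = b ∧ y = a))) := by
  rw [sup_adj, edge_adj]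
  tauto

/-- A copy of `H` in `G + ab` using the edge `ab`. -/
def Closes (H : SimpleGraph W) (G : SimpleGraph V) (a b : V) : Prop :=
  ∃ φ : W → V, Function.Injective φ ∧
    (∀ i j, H.Adj i j → (G ⊔ edge a b).Adj (φ i) (φ j)) ∧
    ∃ i j, H.Adj i j ∧ φ i = a ∧ φ j = b

/-- View a subgraph of `G` as a subgraph of a larger graph. -/
def liftSub {G G' : SimpleGraph V} (h : G ≤ G') (S : G.Subgraph) : G'.Subgraph where
  verts := S.verts
  Adj := S.Adj
  adj_sub := fun hab => h (S.adj_sub hab)
  edge_vert := S.edge_vert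
  symm := S.symm

theorem liftSub_injective {G G' : SimpleGraph V} (h : G ≤ G') :
    Function.Injective (liftSub h) := by
  intro S T hST
  have h1 : S.verts = T.verts := congrArg (fun X : G'.Subgraph => X.verts) hST
  have h2 : S.Adj = T.Adj := congrArg (fun X : G'.Subgraph => X.Adj) hST
  exact Subgraph.ext h1 h2

theorem copyCount_lt_iff [Fintype V] (H : SimpleGraph W) (G : SimpleGraph V) {a b : V}
    (hab : a ≠ b) (hn : ¬ G.Adj a b) :
    G.copyCount H < (G ⊔ edge a b).copyCount H ↔ Closes H G a b := by
  classical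
  have hle : G ≤ G ⊔ edge a b := le_sup_left
  set G' := G ⊔ edge a b with hG'
  let A : Finset G.Subgraph := {S : G.Subgraph | Nonempty (H ≃g S.coe)}
  let B : Finset G'.Subgraph := {S : G'.Subgraph | Nonempty (H ≃g S.coe)}
  have hA : G.copyCount H = A.card := by
    unfold copyCount
    refine congrArg Finset.card ?_
    ext S
    simp only [A, Finset.mem_filter, Finset.mem_univ, true_and]
  have hB : G'.copyCount H = B.card := by
    unfold copyCount
    refine congrArg Finset.card ?_
    ext S
    simp only [B, Finset.mem_filter, Finset.mem_univ, true_and]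
  have hAB : A.image (liftSub hle) ⊆ B := by
    intro T hT
    rw [Finset.mem_image] at hT
    obtain ⟨S, hS, rfl⟩ := hT
    simp only [A, B, Finset.mem_filter, Finset.mem_univ, true_and] at hS ⊢
    exact hS
  have hcard : (A.image (liftSub hle)).card = A.card :=
    Finset.card_image_of_injective _ (liftSub_injective hle)
  rw [hA, hB, ← hcard]
  constructor
  · intro hlt
    obtain ⟨T, hTB, hTA⟩ := Finset.exists_mem_notMem_of_card_lt_card hlt
    simp only [B, Finset.mem_filter, Finset.mem_univ, true_and] at hTB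
    obtain ⟨e⟩ := hTB
    -- `T` has an edge that is not in `G`
    have hex : ∃ x y, T.Adj x y ∧ ¬ G.Adj x y := by
      by_contra hcon
      push Not at hcon
      apply hTA
      rw [Finset.mem_image]
      refine ⟨⟨T.verts, T.Adj, fun h => hcon _ _ h, T.edge_vert, T.symm⟩, ?_, ?_⟩
      · simp only [A, Finset.mem_filter, Finset.mem_univ, true_and]
        exact ⟨e⟩
      · rfl
    obtain ⟨x, y, hxy, hnxy⟩ := hex
    have hT : T.Adj a b := by
      have h1 := T.adj_sub hxy
      rw [hG', sup_edge_adj] at h1
      rcases h1 with h1 | ⟨_, ⟨rfl, rfl⟩ | ⟨rfl, rfl⟩⟩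
      · exact absurd h1 hnxy
      · exact hxy
      · exact T.symm.symm _ _ hxy
    refine ⟨fun w => (e w : V), ?_, ?_, ?_⟩
    · intro w w' h
      exact e.injective (Subtype.ext h)
    · intro i j hij
      have : T.coe.Adj (e i) (e j) := e.map_rel_iff.mpr hij
      exact T.adj_sub this
    · have ha : a ∈ T.verts := T.edge_vert hT
      have hb : b ∈ T.verts := T.edge_vert (T.symm.symm _ _ hT)
      refine ⟨e.symm ⟨a, ha⟩, e.symm ⟨b, hb⟩, ?_, ?_, ?_⟩
      · have : T.coe.Adj ⟨a, ha⟩ ⟨b, hb⟩ := hT
        exact e.symm.map_rel_iff.mpr this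
      · simp
      · simp
  · rintro ⟨φ, hφ, hadj, i, j, hij, rfl, rfl⟩
    apply Finset.card_lt_card
    rw [Finset.ssubset_iff_of_subset hAB]
    let f : Copy H G' := ⟨⟨φ, fun h => hadj _ _ h⟩, hφ⟩
    refine ⟨f.toSubgraph, ?_, ?_⟩
    · simp only [B, Finset.mem_filter, Finset.mem_univ, true_and]
      exact ⟨f.isoToSubgraph⟩
    · intro hmem
      rw [Finset.mem_image] at hmem
      obtain ⟨S, _, hS⟩ := hmem
      have h1 : f.toSubgraph.Adj (φ i) (φ j) := by
        refine ⟨i, j, hij, rfl, rfl⟩
      rw [← hS] at h1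
      exact hn (S.adj_sub h1)

theorem bootStep_adj [Fintype V] (H : SimpleGraph W) (G : SimpleGraph V) (a b : V) :
    (bootStep H G).Adj a b ↔ G.Adj a b ∨ (a ≠ b ∧ ¬ G.Adj a b ∧ Closes H G a b) := by
  by_cases h : G.Adj a b
  · exact ⟨fun _ => Or.inl h, fun _ => Or.inl h⟩
  · constructor
    · rintro (h1 | ⟨h1, h2⟩)
      · exact Or.inl h1
      · exact Or.inr ⟨h1, h, (copyCount_lt_iff H G h1 h).mp h2⟩
    · rintro (h1 | ⟨h1, h2, h3⟩)
      · exact Or.inl h1
      · exact Or.inr ⟨h1, (copyCount_lt_iff H G h1 h).mpr h3⟩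

theorem le_bootStep [Fintype V] (H : SimpleGraph W) (G : SimpleGraph V) : G ≤ bootStep H G :=
  fun _ _ h => Or.inl h

theorem bootProc_zero [Fintype V] (H : SimpleGraph W) (G : SimpleGraph V) :
    bootProc H G 0 = G := rfl

theorem bootProc_succ [Fintype V] (H : SimpleGraph W) (G : SimpleGraph V) (t : ℕ) :
    bootProc H G (t + 1) = bootStep H (bootProc H G t) := by
  unfold bootProc
  rw [Function.iterate_succ_apply']

theorem bootProc_mono [Fintype V] (H : SimpleGraph W) (G : SimpleGraph V) :
    Monotone (bootProc H G) := by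
  apply monotone_nat_of_le_succ
  intro t
  rw [bootProc_succ]
  exact le_bootStep _ _

theorem bootProc_stable [Fintype V] {H : SimpleGraph W} {G : SimpleGraph V} {t : ℕ}
    (h : bootProc H G t = bootProc H G (t + 1)) (s : ℕ) : bootProc H G (t + s) = bootProc H G t := by
  induction s with
  | zero => rfl
  | succ s ih =>
    rw [← add_assoc, bootProc_succ, ih, ← bootProc_succ, ← h]

theorem exists_stable [Fintype V] (H : SimpleGraph W) (G : SimpleGraph V) :
    ∃ t, bootProc H G t = bootProc H G (t + 1) := by
  obtain ⟨n, hn⟩ := WellFoundedGT.monotone_chain_condition ⟨bootProc H G, bootProc_mono H G⟩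
  exact ⟨n, hn (n + 1) (Nat.le_succ n)⟩

theorem le_runTime [Fintype V] {H : SimpleGraph W} {G : SimpleGraph V} {k : ℕ}
    (h : ∀ t < k, bootProc H G t ≠ bootProc H G (t + 1)) : k ≤ runTime H G := by
  by_contra hcon
  push Not at hcon
  have hmem : runTime H G ∈ {t : ℕ | bootProc H G t = bootProc H G (t + 1)} :=
    Nat.sInf_mem (exists_stable H G)
  exact h _ hcon hmem

theorem runTime_le [Fintype V] {H : SimpleGraph W} {G : SimpleGraph V} {k : ℕ}
    (h : bootProc H G k = bootProc H G (k + 1)) : runTime H G ≤ k := Nat.sInf_le h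

theorem runTime_le_maxTime (H : SimpleGraph W) {n : ℕ} (G : SimpleGraph (Fin n)) :
    runTime H G ≤ maxTime H n :=
  le_ciSup (f := fun G : SimpleGraph (Fin n) => runTime H G) (Set.finite_range _).bddAbove G

theorem maxTime_le (H : SimpleGraph W) {n k : ℕ}
    (h : ∀ G : SimpleGraph (Fin n), runTime H G ≤ k) : maxTime H n ≤ k :=
  ciSup_le h

end Pool.Agent.R792
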