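import Mathlib
import Pool.Agent.R792.Boot

/-!
The wheel `W_6` and the wheel with a pendant edge at the hub.
-/

namespace Pool.Agent.R792

open SimpleGraph

/-- The wheel with a rim of six vertices: the hub `none` is joined to all of the 6-cycle
`some 0, some 1, ..., some 5`. -/
def wheel6 : SimpleGraph (Option (Fin 6)) where
  Adj
    | none, none => False
    | none, some _ => True
    | some _, none => True
    | some i, some j => j = i + 1 ∨ i = j + 1
  symm := ⟨by
    intro a b h
    match a, b with
    | some a, some b => exact h.symm
    | some a, none => exact h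
    | none, some b => exact h
    | none, none => exact h⟩
  loopless := ⟨by
    intro a h
    match a with
    | some a =>
      have h' : a = a + 1 ∨ a = a + 1 := h
      revert h'
      revert a
      decide
    | none => exact h⟩

theorem wheel6_connected : wheel6.Connected := by
  rw [connected_iff_exists_forall_reachable]
  refine ⟨none, ?_⟩
  intro w
  match w with
  | none => exact Reachable.refl _
  | some i =>
    have h : wheel6.Adj none (some i) := trivial
    exact h.reachable

variable {V : Type}

/-- `y` is the hub and `r` the rim of a wheel in `G`. -/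
structure IsWheel (G : SimpleGraph V) (y : V) (r : Fin 6 → V) : Prop where
  inj : Function.Injective r
  ne : ∀ i, r i ≠ y
  spoke : ∀ i, G.Adj y (r i)
  rim : ∀ i, G.Adj (r i) (r (i + 1))

/-- The wheel with hub `y` and rim `r` uses the edge `a b`. -/
def Uses (y : V) (r : Fin 6 → V) (a b : V) : Prop :=
  (∃ i, (y = a ∧ r i = b) ∨ (y = b ∧ r i = a)) ∨
    (∃ i, (r i = a ∧ r (i + 1) = b) ∨ (r i = b ∧ r (i + 1) = a))

theorem closes_wheel_iff {G : SimpleGraph V} {a b : V} :
    Closes wheel6 G a b ↔ ∃ y r, IsWheel (G ⊔ edge a b) y r ∧ Uses y r a b := by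
  constructor
  · rintro ⟨φ, hφ, hadj, i, j, hij, ha, hb⟩
    refine ⟨φ none, fun i => φ (some i), ⟨?_, ?_, ?_, ?_⟩, ?_⟩
    · intro i j h
      exact Option.some_injective _ (hφ h)
    · intro i h
      have := hφ h
      cases this
    · intro i
      exact hadj none (some i) trivial
    · intro i
      exact hadj (some i) (some (i + 1)) (Or.inl rfl)
    · match i, j, hij, ha, hb with
      | none, some j, _, ha, hb => exact Or.inl ⟨j, Or.inl ⟨ha, hb⟩⟩
      | some i, none, _, ha, hb => exact Or.inl ⟨i, Or.inr ⟨hb, ha⟩⟩
      | some i, some j, Or.inl h, ha, hb =>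
        subst h
        exact Or.inr ⟨i, Or.inl ⟨ha, hb⟩⟩
      | some i, some j, Or.inr h, ha, hb =>
        subst h
        exact Or.inr ⟨j, Or.inr ⟨hb, ha⟩⟩
  · rintro ⟨y, r, hw, hu⟩
    refine ⟨fun o => o.elim y r, ?_, ?_, ?_⟩
    · intro i j h
      match i, j, h with
      | none, none, _ => rfl
      | none, some j, h => exact absurd h.symm (hw.ne j)
      | some i, none, h => exact absurd h (hw.ne i)
      | some i, some j, h => exact congrArg some (hw.inj h)
    · intro i j h
      match i, j, h with
      | none, some j, _ => exact hw.spoke j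
      | some i, none, _ => exact (hw.spoke i).symm
      | some i, some j, Or.inl h =>
        subst h
        exact hw.rim i
      | some i, some j, Or.inr h =>
        subst h
        exact (hw.rim j).symm
    · rcases hu with ⟨i, ⟨h1, h2⟩ | ⟨h1, h2⟩⟩ | ⟨i, ⟨h1, h2⟩ | ⟨h1, h2⟩⟩
      · exact ⟨none, some i, trivial, h1, h2⟩
      · exact ⟨some i, none, trivial, h2, h1⟩
      · exact ⟨some i, some (i + 1), Or.inl rfl, h1, h2⟩
      · exact ⟨some (i + 1), some i, Or.inr rfl, h2, h1⟩

/-- The wheel with a pendant vertex attached to the hub. -/
abbrev wheelP : SimpleGraph (Option (Option (Fin 6))) := addPendant wheel6 none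

theorem closes_wheelP_iff {G : SimpleGraph V} {a b : V} :
    Closes wheelP G a b ↔ ∃ y r p, IsWheel (G ⊔ edge a b) y r ∧ (∀ i, r i ≠ p) ∧
      (G ⊔ edge a b).Adj y p ∧ (Uses y r a b ∨ (y = a ∧ p = b) ∨ (y = b ∧ p = a)) := by
  constructor
  · rintro ⟨φ, hφ, hadj, i, j, hij, ha, hb⟩
    refine ⟨φ (some none), fun i => φ (some (some i)), φ none, ⟨?_, ?_, ?_, ?_⟩, ?_, ?_, ?_⟩
    · intro i j h
      exact Option.some_injective _ (Option.some_injective _ (hφ h))
    · intro i h
      have := hφ h
      cases this
    · intro i
      exact hadj (some none) (some (some i)) trivial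
    · intro i
      exact hadj (some (some i)) (some (some (i + 1))) (Or.inl rfl)
    · intro i h
      have := hφ h
      cases this
    · exact hadj (some none) none rfl
    · match i, j, hij, ha, hb with
      | some none, some (some j), _, ha, hb => exact Or.inl (Or.inl ⟨j, Or.inl ⟨ha, hb⟩⟩)
      | some (some i), some none, _, ha, hb => exact Or.inl (Or.inl ⟨i, Or.inr ⟨hb, ha⟩⟩)
      | some (some i), some (some j), Or.inl h, ha, hb =>
        subst h
        exact Or.inl (Or.inr ⟨i, Or.inl ⟨ha, hb⟩⟩)
      | some (some i), some (some j), Or.inr h, ha, hb =>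
        subst h
        exact Or.inl (Or.inr ⟨j, Or.inr ⟨hb, ha⟩⟩)
      | some i, none, h, ha, hb =>
        have h' : i = none := h
        subst h'
        exact Or.inr (Or.inl ⟨ha, hb⟩)
      | none, some j, h, ha, hb =>
        have h' : j = none := h
        subst h'
        exact Or.inr (Or.inr ⟨hb, ha⟩)
  · rintro ⟨y, r, p, hw, hp, hyp, hu⟩
    have hyp' : y ≠ p := hyp.ne
    refine ⟨fun o => o.elim p (fun o' => o'.elim y r), ?_, ?_, ?_⟩
    · intro i j h
      match i, j, h with
      | none, none, _ => rfl
      | some none, some none, _ => rfl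
      | none, some none, h => exact absurd h.symm hyp'
      | some none, none, h => exact absurd h hyp'
      | none, some (some j), h => exact absurd h.symm (hp j)
      | some (some j), none, h => exact absurd h (hp j)
      | some none, some (some j), h => exact absurd h.symm (hw.ne j)
      | some (some i), some none, h => exact absurd h (hw.ne i)
      | some (some i), some (some j), h => exact congrArg (fun z => some (some z)) (hw.inj h)
    · intro i j h
      match i, j, h with
      | some none, some (some j), _ => exact hw.spoke j
      | some (some i), some none, _ => exact (hw.spoke i).symm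
      | some (some i), some (some j), Or.inl h =>
        subst h
        exact hw.rim i
      | some (some i), some (some j), Or.inr h =>
        subst h
        exact (hw.rim j).symm
      | some i, none, h =>
        have h' : i = none := h
        subst h'
        exact hyp
      | none, some j, h =>
        have h' : j = none := h
        subst h'
        exact hyp.symm
    · rcases hu with (⟨i, ⟨h1, h2⟩ | ⟨h1, h2⟩⟩ | ⟨i, ⟨h1, h2⟩ | ⟨h1, h2⟩⟩) | ⟨h1, h2⟩ | ⟨h1, h2⟩
      · exact ⟨some none, some (some i), trivial, h1, h2⟩
      · exact ⟨some (some i), some none, trivial, h2, h1⟩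
      · exact ⟨some (some i), some (some (i + 1)), Or.inl rfl, h1, h2⟩
      · exact ⟨some (some (i + 1)), some (some i), Or.inr rfl, h2, h1⟩
      · exact ⟨some none, none, rfl, h1, h2⟩
      · exact ⟨none, some none, rfl, h2, h1⟩

end Pool.Agent.R792
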