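import Mathlib
import Pool.Agent.R792.Wheel

/-!
If `x` is joined to everything then paths with five edges avoiding `x` get closed.
-/

namespace Pool.Agent.R792

open SimpleGraph

variable {V : Type}

/-- The ends of a path with five edges. -/
def Cl5 (G : SimpleGraph V) (u v : V) : Prop :=
  ∃ a b c d, [u, a, b, c, d, v].Nodup ∧ G.Adj u a ∧ G.Adj a b ∧ G.Adj b c ∧ G.Adj c d ∧ G.Adj d v

theorem Cl5.symm {G : SimpleGraph V} {u v : V} (h : Cl5 G u v) : Cl5 G v u := by
  obtain ⟨a, b, c, d, h0, h1, h2, h3, h4, h5⟩ := h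
  refine ⟨d, c, b, a, ?_, h5.symm, h4.symm, h3.symm, h2.symm, h1.symm⟩
  have : [v, d, c, b, a, u] = [u, a, b, c, d, v].reverse := rfl
  rw [this]
  exact List.nodup_reverse.mpr h0

theorem Cl5.ne {G : SimpleGraph V} {u v : V} (h : Cl5 G u v) : u ≠ v := by
  obtain ⟨a, b, c, d, h0, h1, h2, h3, h4, h5⟩ := h
  simp only [List.nodup_cons, List.mem_cons, List.not_mem_nil, or_false, not_or] at h0
  tauto

/-- One round of the process for the 6-cycle. -/
def c6Step (Q : SimpleGraph V) : SimpleGraph V where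
  Adj a b := Q.Adj a b ∨ Cl5 Q a b
  symm := ⟨by
    intro a b h
    rcases h with h | h
    · exact Or.inl h.symm
    · exact Or.inr h.symm⟩
  loopless := ⟨by
    intro a h
    rcases h with h | h
    · exact h.ne rfl
    · exact h.ne rfl⟩

theorem c6Step_adj (Q : SimpleGraph V) (a b : V) :
    (c6Step Q).Adj a b ↔ Q.Adj a b ∨ Cl5 Q a b := Iff.rfl

/-- Delete all edges at `x`. -/
def del (G : SimpleGraph V) (x : V) : SimpleGraph V where
  Adj a b := G.Adj a b ∧ a ≠ x ∧ b ≠ x
  symm := ⟨by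
    intro a b h
    exact ⟨h.1.symm, h.2.2, h.2.1⟩⟩
  loopless := ⟨by
    intro a h
    exact h.1.ne rfl⟩

theorem del_adj (G : SimpleGraph V) (x a b : V) :
    (del G x).Adj a b ↔ G.Adj a b ∧ a ≠ x ∧ b ≠ x := Iff.rfl

/-- `x` is joined to all other vertices. -/
def Univ (G : SimpleGraph V) (x : V) : Prop := ∀ v, v ≠ x → G.Adj x v

theorem Univ.mono {G G' : SimpleGraph V} {x : V} (h : Univ G x) (hle : G ≤ G') : Univ G' x :=
  fun v hv => hle (h v hv)

theorem Cl5.mono {G G' : SimpleGraph V} {u v : V} (h : Cl5 G u v) (hle : G ≤ G') : Cl5 G' u v := by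
  obtain ⟨a, b, c, d, h0, h1, h2, h3, h4, h5⟩ := h
  exact ⟨a, b, c, d, h0, hle h1, hle h2, hle h3, hle h4, hle h5⟩

theorem del_mono {G G' : SimpleGraph V} (x : V) (hle : G ≤ G') : del G x ≤ del G' x :=
  fun _ _ h => ⟨hle h.1, h.2⟩

theorem ruleA [Fintype V] (hcard : 8 ≤ Fintype.card V) {G : SimpleGraph V} {x u v : V}
    (hx : Univ G x) (h : Cl5 (del G x) u v) : (bootStep wheelP G).Adj u v := by
  classical
  rw [bootStep_adj]
  by_cases huv : G.Adj u v
  · exact Or.inl huv
  right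
  refine ⟨h.ne, huv, ?_⟩
  obtain ⟨a, b, c, d, h0, h1, h2, h3, h4, h5⟩ := h
  rw [del_adj] at h1 h2 h3 h4 h5
  have hinj : Function.Injective ![u, a, b, c, d, v] := by
    rw [← List.nodup_ofFn]
    simpa using h0
  have hux : u ≠ x := h1.2.1
  have hax : a ≠ x := h1.2.2
  have hbx : b ≠ x := h2.2.2
  have hcx : c ≠ x := h3.2.2
  have hdx : d ≠ x := h4.2.2
  have hvx : v ≠ x := h5.2.2
  obtain ⟨p, hp⟩ : ∃ p, p ∉ ({x, u, a, b, c, d, v} : Finset V) := by
    by_contra hcon
    push Not at hcon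
    have h1 : (Finset.univ : Finset V) ⊆ {x, u, a, b, c, d, v} := fun p _ => hcon p
    have h2 := Finset.card_le_card h1
    rw [Finset.card_univ] at h2
    have h3 : ({x, u, a, b, c, d, v} : Finset V).card ≤ 7 :=
      (Finset.card_insert_le _ _).trans (Nat.succ_le_succ Finset.card_le_six)
    omega
  simp only [Finset.mem_insert, Finset.mem_singleton, not_or] at hp
  obtain ⟨hpx, hpu, hpa, hpb, hpc, hpd, hpv⟩ := hp
  have huv' : u ≠ v := by
    intro h
    have := @hinj 0 5 (by simpa using h)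
    revert this; decide
  rw [closes_wheelP_iff]
  refine ⟨x, ![u, a, b, c, d, v], p, ⟨hinj, ?_, ?_, ?_⟩, ?_, ?_, ?_⟩
  · intro i
    fin_cases i <;> simpa
  · intro i
    rw [sup_edge_adj]
    left
    apply hx
    fin_cases i <;> simpa
  · intro i
    rw [sup_edge_adj]
    fin_cases i
    · exact Or.inl h1.1
    · exact Or.inl h2.1
    · exact Or.inl h3.1
    · exact Or.inl h4.1
    · exact Or.inl h5.1
    · right
      exact ⟨fun h => huv' h.symm, Or.inr ⟨rfl, rfl⟩⟩
  · intro i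
    fin_cases i
    · exact fun h => hpu h.symm
    · exact fun h => hpa h.symm
    · exact fun h => hpb h.symm
    · exact fun h => hpc h.symm
    · exact fun h => hpd h.symm
    · exact fun h => hpv h.symm
  · rw [sup_edge_adj]
    exact Or.inl (hx p hpx)
  · left; right
    exact ⟨5, Or.inr ⟨rfl, rfl⟩⟩

theorem c6_le_del_step [Fintype V] (hcard : 8 ≤ Fintype.card V) {G : SimpleGraph V} {x : V}
    (hx : Univ G x) : c6Step (del G x) ≤ del (bootStep wheelP G) x := by
  intro u v h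
  rw [c6Step_adj] at h
  rw [del_adj]
  rcases h with h | h
  · exact ⟨le_bootStep _ _ h.1, h.2⟩
  · refine ⟨ruleA hcard hx h, ?_⟩
    obtain ⟨a, b, c, d, h0, h1, h2, h3, h4, h5⟩ := h
    exact ⟨h1.2.1, h5.2.2⟩

end Pool.Agent.R792
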