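import Mathlib
import Pool.Agent.R792.RuleA

/-!
The process for the 6-cycle: distances, restriction to components, small components.
-/

namespace Pool.Agent.R792

open SimpleGraph

variable {V : Type}

theorem cl5_mk {G : SimpleGraph V} {u a b c d v : V} (h1 : G.Adj u a) (h2 : G.Adj a b)
    (h3 : G.Adj b c) (h4 : G.Adj c d) (h5 : G.Adj d v) (hub : u ≠ b) (huc : u ≠ c) (hud : u ≠ d)
    (huv : u ≠ v) (hac : a ≠ c) (had : a ≠ d) (hav : a ≠ v) (hbd : b ≠ d) (hbv : b ≠ v)
    (hcv : c ≠ v) : Cl5 G u v := by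
  refine ⟨a, b, c, d, ?_, h1, h2, h3, h4, h5⟩
  have e1 := h1.ne
  have e2 := h2.ne
  have e3 := h3.ne
  have e4 := h4.ne
  have e5 := h5.ne
  simp only [List.nodup_cons, List.mem_cons, List.not_mem_nil, or_false, not_or, List.nodup_nil,
    and_true, not_false_eq_true]
  exact ⟨⟨e1, hub, huc, hud, huv⟩, ⟨e2, hac, had, hav⟩, ⟨e3, hbd, hbv⟩, ⟨e4, hcv⟩, e5⟩

/-- The `t`-th graph of the process for the 6-cycle. -/
def c6Proc (Q : SimpleGraph V) (t : ℕ) : SimpleGraph V := c6Step^[t] Q

theorem c6Proc_zero (Q : SimpleGraph V) : c6Proc Q 0 = Q := rfl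

theorem c6Proc_succ (Q : SimpleGraph V) (t : ℕ) : c6Proc Q (t + 1) = c6Step (c6Proc Q t) := by
  unfold c6Proc
  rw [Function.iterate_succ_apply']

theorem c6Proc_add (Q : SimpleGraph V) (s t : ℕ) : c6Proc Q (s + t) = c6Proc (c6Proc Q s) t := by
  induction t with
  | zero => rfl
  | succ t ih => rw [← add_assoc, c6Proc_succ, ih, c6Proc_succ]

theorem le_c6Step (Q : SimpleGraph V) : Q ≤ c6Step Q := fun _ _ h => Or.inl h

theorem c6Proc_mono (Q : SimpleGraph V) : Monotone (c6Proc Q) := by
  apply monotone_nat_of_le_succ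
  intro t
  rw [c6Proc_succ]
  exact le_c6Step _

theorem c6Proc_stable {Q : SimpleGraph V} {t : ℕ} (h : c6Proc Q t = c6Proc Q (t + 1)) (s : ℕ) :
    c6Proc Q (t + s) = c6Proc Q t := by
  induction s with
  | zero => rfl
  | succ s ih => rw [← add_assoc, c6Proc_succ, ih, ← c6Proc_succ, ← h]

theorem c6Proc_stable' {Q : SimpleGraph V} {t : ℕ} (h : c6Proc Q t = c6Proc Q (t + 1)) {s : ℕ}
    (hs : t ≤ s) : c6Proc Q s = c6Proc Q (s + 1) := by
  obtain ⟨d, rfl⟩ := Nat.exists_eq_add_of_le hs
  rw [c6Proc_stable h, add_assoc, c6Proc_stable h]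

/-! ### Restriction to closed sets -/

/-- No edge leaves `C`. -/
def ClosedIn (Q : SimpleGraph V) (C : Set V) : Prop := ∀ a b, a ∈ C → Q.Adj a b → b ∈ C

theorem closedIn_step {Q : SimpleGraph V} {C : Set V} (h : ClosedIn Q C) :
    ClosedIn (c6Step Q) C := by
  intro u v hu huv
  rcases huv with huv | ⟨a, b, c, d, h0, h1, h2, h3, h4, h5⟩
  · exact h u v hu huv
  · exact h _ _ (h _ _ (h _ _ (h _ _ (h _ _ hu h1) h2) h3) h4) h5

theorem closedIn_proc {Q : SimpleGraph V} {C : Set V} (h : ClosedIn Q C) (t : ℕ) :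
    ClosedIn (c6Proc Q t) C := by
  induction t with
  | zero => exact h
  | succ t ih => rw [c6Proc_succ]; exact closedIn_step ih

theorem cl5_induce {Q : SimpleGraph V} {C : Set V} (h : ClosedIn Q C) (u v : C) :
    Cl5 (Q.induce C) u v ↔ Cl5 Q (u : V) (v : V) := by
  constructor
  · rintro ⟨a, b, c, d, h0, h1, h2, h3, h4, h5⟩
    refine ⟨a, b, c, d, ?_, h1, h2, h3, h4, h5⟩
    have := h0.map Subtype.val_injective
    simpa using this
  · rintro ⟨a, b, c, d, h0, h1, h2, h3, h4, h5⟩
    have ha : a ∈ C := h _ _ u.2 h1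
    have hb : b ∈ C := h _ _ ha h2
    have hc : c ∈ C := h _ _ hb h3
    have hd : d ∈ C := h _ _ hc h4
    refine ⟨⟨a, ha⟩, ⟨b, hb⟩, ⟨c, hc⟩, ⟨d, hd⟩, ?_, h1, h2, h3, h4, h5⟩
    apply List.Nodup.of_map Subtype.val
    simpa using h0

theorem induce_step {Q : SimpleGraph V} {C : Set V} (h : ClosedIn Q C) :
    (c6Step Q).induce C = c6Step (Q.induce C) := by
  ext u v
  rw [c6Step_adj, cl5_induce h]
  rfl

theorem induce_proc {Q : SimpleGraph V} {C : Set V} (h : ClosedIn Q C) (t : ℕ) :
    (c6Proc Q t).induce C = c6Proc (Q.induce C) t := by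
  induction t with
  | zero => rfl
  | succ t ih => rw [c6Proc_succ, induce_step (closedIn_proc h t), ih, c6Proc_succ]

/-- If every connected component is stable at time `T` then so is the whole graph. -/
theorem stable_of_components {Q : SimpleGraph V} {T : ℕ}
    (h : ∀ C : Set V, (Q.induce C).Connected →
      c6Proc (Q.induce C) T = c6Proc (Q.induce C) (T + 1)) :
    c6Proc Q T = c6Proc Q (T + 1) := by
  apply le_antisymm (c6Proc_mono Q (Nat.le_succ T))
  intro a b hab
  let K := Q.connectedComponentMk a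
  have hK : ClosedIn Q K.supp := by
    intro u v hu huv
    rw [ConnectedComponent.mem_supp_iff] at hu ⊢
    rw [← hu]
    exact (ConnectedComponent.connectedComponentMk_eq_of_adj huv).symm
  have hconn : (Q.induce K.supp).Connected := K.connected_toSimpleGraph
  have ha : a ∈ K.supp := rfl
  have hb : b ∈ K.supp := closedIn_proc hK (T + 1) a b ha hab
  have h1 : ((c6Proc Q (T + 1)).induce K.supp).Adj ⟨a, ha⟩ ⟨b, hb⟩ := hab
  rw [induce_proc hK, ← h K.supp hconn, ← induce_proc hK] at h1
  exact h1

/-! ### Distances shrink by a factor five -/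

theorem conn_proc {Q : SimpleGraph V} (h : Q.Connected) (t : ℕ) : (c6Proc Q t).Connected :=
  h.mono (c6Proc_mono Q (Nat.zero_le t))

theorem dist_step {Q : SimpleGraph V} (h : Q.Connected) :
    ∀ (d : ℕ) (u v : V), Q.dist u v = d → 5 * (c6Step Q).dist u v ≤ d + 16 := by
  intro d
  induction d using Nat.strong_induction_on with
  | _ d ih =>
    intro u v hd
    have hconn' : (c6Step Q).Connected := h.mono (le_c6Step Q)
    by_cases hd5 : d < 5
    · have h1 : (c6Step Q).dist u v ≤ Q.dist u v := (h u v).dist_anti (le_c6Step Q)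
      omega
    · push Not at hd5
      obtain ⟨p, hp, hlen⟩ := h.exists_path_of_dist u v
      have hinj := hp.getVert_injOn
      have hadj : ∀ i, i < p.length → Q.Adj (p.getVert i) (p.getVert (i + 1)) :=
        fun i hi => p.adj_getVert_succ hi
      have hne : ∀ i j, i ≤ 5 → j ≤ 5 → i ≠ j → p.getVert i ≠ p.getVert j := by
        intro i j hi hj hij he
        exact hij (hinj (by rw [Set.mem_ofPred_eq]; omega) (by rw [Set.mem_ofPred_eq]; omega) he)
      have h0 : p.getVert 0 = u := p.getVert_zero
      have hcl : Cl5 Q (p.getVert 0) (p.getVert 5) := by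
        exact cl5_mk (hadj 0 (by omega)) (hadj 1 (by omega)) (hadj 2 (by omega))
          (hadj 3 (by omega)) (hadj 4 (by omega))
          (hne _ _ (by omega) (by omega) (by omega)) (hne _ _ (by omega) (by omega) (by omega))
          (hne _ _ (by omega) (by omega) (by omega)) (hne _ _ (by omega) (by omega) (by omega))
          (hne _ _ (by omega) (by omega) (by omega)) (hne _ _ (by omega) (by omega) (by omega))
          (hne _ _ (by omega) (by omega) (by omega)) (hne _ _ (by omega) (by omega) (by omega))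
          (hne _ _ (by omega) (by omega) (by omega)) (hne _ _ (by omega) (by omega) (by omega))
      have h1 : (c6Step Q).dist u (p.getVert 5) = 1 := by
        rw [dist_eq_one_iff_adj]
        rw [h0] at hcl
        exact Or.inr hcl
      have h2 : Q.dist (p.getVert 5) v ≤ d - 5 := by
        have := dist_le (p.drop 5)
        rw [Walk.drop_length] at this
        omega
      have h3 : Q.dist u (p.getVert 5) ≤ 5 := by
        have := dist_le (p.take 5)
        rw [Walk.take_length] at this
        omega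
      have h4 : Q.dist u v ≤ Q.dist u (p.getVert 5) + Q.dist (p.getVert 5) v := h.dist_triangle
      have h5 := ih (d - 5) (by omega) (p.getVert 5) v (by omega)
      have h6 : (c6Step Q).dist u v ≤ (c6Step Q).dist u (p.getVert 5) +
          (c6Step Q).dist (p.getVert 5) v := hconn'.dist_triangle
      omega

theorem dist_proc {Q : SimpleGraph V} (h : Q.Connected) (u v : V) (i : ℕ) :
    5 ^ i * (c6Proc Q i).dist u v + 4 ≤ Q.dist u v + 4 * 5 ^ i := by
  induction i with
  | zero => simp [c6Proc_zero]
  | succ i ih =>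
    have h1 := dist_step (conn_proc h i) _ u v rfl
    rw [← c6Proc_succ] at h1
    have h2 : 5 ^ i * (5 * (c6Proc Q (i + 1)).dist u v) ≤ 5 ^ i * ((c6Proc Q i).dist u v + 16) :=
      Nat.mul_le_mul_left _ h1
    have h3 : 5 ^ (i + 1) * (c6Proc Q (i + 1)).dist u v =
        5 ^ i * (5 * (c6Proc Q (i + 1)).dist u v) := by ring
    rw [h3]
    have h4 : 5 ^ i * ((c6Proc Q i).dist u v + 16) = 5 ^ i * (c6Proc Q i).dist u v + 16 * 5 ^ i := by
      ring
    have h5 : 4 * 5 ^ (i + 1) = 20 * 5 ^ i := by ring
    rw [h5]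
    omega

theorem dist_small [Fintype V] {Q : SimpleGraph V} (h : Q.Connected) {i : ℕ}
    (hi : Fintype.card V ≤ 5 ^ i) (u v : V) : (c6Proc Q i).dist u v ≤ 4 := by
  have h1 := dist_proc h u v i
  obtain ⟨p, hp, hlen⟩ := h.exists_path_of_dist u v
  have h2 := hp.length_lt
  by_contra hcon
  push Not at hcon
  have h3 : 5 ^ i * 5 ≤ 5 ^ i * (c6Proc Q i).dist u v := Nat.mul_le_mul_left _ hcon
  omega

/-! ### Counting edges -/

theorem stable_by_count [Fintype V] (Q : SimpleGraph V) :
    c6Proc Q (Fintype.card V ^ 2) = c6Proc Q (Fintype.card V ^ 2 + 1) := by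
  classical
  by_contra hcon
  have hne : ∀ t, t ≤ Fintype.card V ^ 2 → c6Proc Q t ≠ c6Proc Q (t + 1) := by
    intro t ht h
    exact hcon (c6Proc_stable' h ht)
  let N : ℕ → ℕ := fun t => (Finset.univ.filter (fun q : V × V => (c6Proc Q t).Adj q.1 q.2)).card
  have hN : ∀ t, t ≤ Fintype.card V ^ 2 + 1 → t ≤ N t := by
    intro t
    induction t with
    | zero => intro _; exact Nat.zero_le _
    | succ t ih =>
      intro ht
      have h1 := ih (by omega)
      have h2 := hne t (by omega)
      have h3 : N t < N (t + 1) := by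
        apply Finset.card_lt_card
        rw [Finset.ssubset_iff_of_subset]
        · by_contra hall
          push Not at hall
          apply h2
          apply le_antisymm (c6Proc_mono Q (Nat.le_succ t))
          intro a b hab
          have := hall (a, b) (by simpa using hab)
          simpa using this
        · intro q hq
          simp only [Finset.mem_filter, Finset.mem_univ, true_and] at hq ⊢
          exact c6Proc_mono Q (Nat.le_succ t) hq
      omega
  have h1 := hN (Fintype.card V ^ 2 + 1) le_rfl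
  have h2 : N (Fintype.card V ^ 2 + 1) ≤ Fintype.card V ^ 2 := by
    have := Finset.card_filter_le (Finset.univ : Finset (V × V))
      (fun q : V × V => (c6Proc Q (Fintype.card V ^ 2 + 1)).Adj q.1 q.2)
    rw [Finset.card_univ, Fintype.card_prod, ← sq] at this
    exact this
  omega

end Pool.Agent.R792
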