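import Mathlib
import Pool.Agent.R792.C6a

/-!
The process for the 6-cycle: connected graphs of small diameter stabilise quickly.
-/

namespace Pool.Agent.R792

open SimpleGraph

variable {V : Type}

/-- A copy of `K_{3,3}`. -/
structure Core (G : SimpleGraph V) (a b : Fin 3 → V) : Prop where
  inja : Function.Injective a
  injb : Function.Injective b
  adj : ∀ i j, G.Adj (a i) (b j)

theorem Core.swap {G : SimpleGraph V} {a b : Fin 3 → V} (h : Core G a b) : Core G b a :=
  ⟨h.injb, h.inja, fun i j => (h.adj j i).symm⟩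

theorem Core.mono {G G' : SimpleGraph V} {a b : Fin 3 → V} (h : Core G a b) (hle : G ≤ G') :
    Core G' a b := ⟨h.inja, h.injb, fun i j => hle (h.adj i j)⟩

/-- `z` is joined to all `b j`. -/
def To (G : SimpleGraph V) (b : Fin 3 → V) (z : V) : Prop := ∀ j, G.Adj z (b j)

theorem To.mono {G G' : SimpleGraph V} {b : Fin 3 → V} {z : V} (h : To G b z) (hle : G ≤ G') :
    To G' b z := fun j => hle (h j)

theorem Core.toA {G : SimpleGraph V} {a b : Fin 3 → V} (h : Core G a b) (i : Fin 3) :
    To G b (a i) := fun j => h.adj i j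

theorem Core.toB {G : SimpleGraph V} {a b : Fin 3 → V} (h : Core G a b) (j : Fin 3) :
    To G a (b j) := fun i => (h.adj i j).symm

/-- Among three distinct vertices one avoids two given vertices. -/
theorem avoid_two {a : Fin 3 → V} (ha : Function.Injective a) (p q : V) :
    ∃ i, a i ≠ p ∧ a i ≠ q := by
  by_contra hcon
  push Not at hcon
  have h0 := hcon 0
  have h1 := hcon 1
  have h2 := hcon 2
  have n01 : a 0 ≠ a 1 := fun h => absurd (ha h) (by decide)
  have n02 : a 0 ≠ a 2 := fun h => absurd (ha h) (by decide)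
  have n12 : a 1 ≠ a 2 := fun h => absurd (ha h) (by decide)
  by_cases e0 : a 0 = p
  · have f1 : a 1 = q := h1 (fun h => n01 (e0.trans h.symm))
    have f2 : a 2 = q := h2 (fun h => n02 (e0.trans h.symm))
    exact n12 (f1.trans f2.symm)
  · have f0 := h0 e0
    by_cases e1 : a 1 = p
    · have f2 : a 2 = q := h2 (fun h => n12 (e1.trans h.symm))
      exact n02 (f0.trans f2.symm)
    · exact n01 (f0.trans (h1 e1).symm)

/-- Among three distinct vertices two distinct ones avoid a given vertex. -/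
theorem avoid_one {a : Fin 3 → V} (ha : Function.Injective a) (p : V) :
    ∃ i j, i ≠ j ∧ a i ≠ p ∧ a j ≠ p := by
  obtain ⟨i, hi, -⟩ := avoid_two ha p p
  obtain ⟨j, hj, hj'⟩ := avoid_two ha p (a i)
  exact ⟨i, j, fun h => hj' (by rw [h]), hi, hj⟩

/-- A vertex outside of the core joined to a typed vertex becomes typed. -/
theorem spread {G : SimpleGraph V} {a b : Fin 3 → V} (h : Core G a b) {z w : V}
    (hzw : G.Adj z w) (hw : To G b w) (hza : ∀ i, z ≠ a i) (hzb : ∀ j, z ≠ b j) :
    To (c6Step G) a z := by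
  intro k
  by_cases hwk : w = a k
  · rw [← hwk]
    exact Or.inl hzw
  obtain ⟨l, hl1, hl2⟩ := avoid_two h.inja w (a k)
  have n01 : b 0 ≠ b 1 := fun e => absurd (h.injb e) (by decide)
  have hab : ∀ i j, a i ≠ b j := fun i j => (h.adj i j).ne
  exact Or.inr (cl5_mk hzw (hw 0) (h.adj l 0).symm (h.adj l 1) (h.adj k 1).symm
    (hzb 0) (hza l) (hzb 1) (hza k) hl1.symm (hw 1).ne hwk n01 (hab k 0).symm hl2)

/-- `z` is joined to all of one side of the core. -/
def Typed (G : SimpleGraph V) (a b : Fin 3 → V) (z : V) : Prop := To G b z ∨ To G a z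

theorem typed_step {G : SimpleGraph V} {a b : Fin 3 → V} (h : Core G a b) {z w : V}
    (hzw : G.Adj z w) (hw : Typed G a b w) : Typed (c6Step G) a b z := by
  by_cases hza : ∃ i, z = a i
  · obtain ⟨i, rfl⟩ := hza
    exact Or.inl ((h.toA i).mono (le_c6Step G))
  by_cases hzb : ∃ i, z = b i
  · obtain ⟨i, rfl⟩ := hzb
    exact Or.inr ((h.toB i).mono (le_c6Step G))
  push Not at hza hzb
  rcases hw with hw | hw
  · exact Or.inr (spread h hzw hw hza hzb)
  · exact Or.inl (spread h.swap hzw hw hzb hza)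

theorem typed_walk {G : SimpleGraph V} {a b : Fin 3 → V} (h : Core G a b) :
    ∀ (k : ℕ) (z : V) (p : G.Walk z (a 0)), p.length ≤ k → Typed (c6Proc G k) a b z := by
  intro k
  induction k with
  | zero =>
    intro z p hp
    have : z = a 0 := Walk.eq_of_length_eq_zero (Nat.le_zero.mp hp)
    rw [this]
    exact Or.inl (h.toA 0)
  | succ k ih =>
    intro z p hp
    cases p with
    | nil => exact Or.inl ((h.toA 0).mono (c6Proc_mono G (Nat.zero_le _)))
    | @cons _ w _ hzw q =>
      have hq : q.length ≤ k := by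
        rw [Walk.length_cons] at hp
        omega
      have hw := ih w q hq
      rw [c6Proc_succ]
      exact typed_step (h.mono (c6Proc_mono G (Nat.zero_le _)))
        (c6Proc_mono G (Nat.zero_le k) hzw) hw

theorem third : ∀ i j : Fin 3, i ≠ j → ∃ k, k ≠ i ∧ k ≠ j := by decide

/-- An edge inside a type creates a triangle in the core. -/
theorem triangle_of_edge {G : SimpleGraph V} {a b : Fin 3 → V} (h : Core G a b) {z w : V}
    (hzw : G.Adj z w) (hz : To G b z) (hw : To G b w) (i j : Fin 3) (hij : i ≠ j) :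
    (c6Step G).Adj (b i) (b j) := by
  obtain ⟨k, hki, hkj⟩ := third i j hij
  obtain ⟨l, hl1, hl2⟩ := avoid_two h.inja z w
  have hb : ∀ p q, p ≠ q → b p ≠ b q := fun p q hpq e => hpq (h.injb e)
  have hab : ∀ i j, a i ≠ b j := fun i j => (h.adj i j).ne
  exact Or.inr (cl5_mk (hz i).symm hzw (hw k) (h.adj l k).symm (h.adj l j)
    (hw i).ne.symm (hb _ _ hki.symm) (hab l i).symm (hb _ _ hij) (hz k).ne hl1.symm (hz j).ne
    hl2.symm (hw j).ne (hb _ _ hkj))

/-- A triangle on one side of the core creates one on the other side. -/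
theorem triangle_of_triangle {G : SimpleGraph V} {a b : Fin 3 → V} (h : Core G a b)
    (hb : ∀ i j, i ≠ j → G.Adj (b i) (b j)) (i j : Fin 3) (hij : i ≠ j) :
    (c6Step G).Adj (a i) (a j) := by
  obtain ⟨k, hki, hkj⟩ := third i j hij
  have hb' : ∀ p q, p ≠ q → b p ≠ b q := fun p q hpq e => hpq (h.injb e)
  have ha' : ∀ p q, p ≠ q → a p ≠ a q := fun p q hpq e => hpq (h.inja e)
  have hab : ∀ i j, a i ≠ b j := fun i j => (h.adj i j).ne
  exact Or.inr (cl5_mk (h.adj i 0) (hb 0 1 (by decide)) (h.adj k 1).symm (h.adj k 2)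
    (h.adj j 2).symm (hab i 1) (ha' _ _ hki.symm) (hab i 2) (ha' _ _ hij) (hab k 0).symm
    (hb' _ _ (by decide)) (hab j 0).symm (hb' _ _ (by decide)) (hab j 1).symm (ha' _ _ hkj))

/-- With a triangle, typed vertices get joined to the whole core. -/
theorem join_core {G : SimpleGraph V} {a b : Fin 3 → V} (h : Core G a b)
    (hb : ∀ i j, i ≠ j → G.Adj (b i) (b j))
    {z : V} (hz : To G b z) (i : Fin 3) (hzi : z ≠ a i) : (c6Step G).Adj z (a i) := by
  obtain ⟨m, hm1, hm2⟩ := avoid_two h.inja z (a i)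
  have hab : ∀ i j, a i ≠ b j := fun i j => (h.adj i j).ne
  exact Or.inr (cl5_mk (hz 0) (hb 0 1 (by decide)) (h.adj m 1).symm (h.adj m 2) (h.adj i 2).symm
    (hz 1).ne hm1.symm (hz 2).ne hzi (hab m 0).symm (hb 0 2 (by decide)).ne (hab i 0).symm
    (hb 1 2 (by decide)).ne (hab i 1).symm hm2)

theorem others : ∀ k : Fin 3, ∃ l m, l ≠ m ∧ l ≠ k ∧ m ≠ k := by decide

theorem join_core' {G : SimpleGraph V} {a b : Fin 3 → V} (h : Core G a b)
    (hb : ∀ i j, i ≠ j → G.Adj (b i) (b j))
    {z : V} (hz : To G a z) (k : Fin 3) (hzk : z ≠ b k) : (c6Step G).Adj z (b k) := by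
  by_cases hzb : ∃ l, z = b l
  · obtain ⟨l, rfl⟩ := hzb
    exact Or.inl (hb l k (fun e => hzk (by rw [e])))
  push Not at hzb
  obtain ⟨l, m, hlm, hlk, hmk⟩ := others k
  have hab : ∀ i j, a i ≠ b j := fun i j => (h.adj i j).ne
  have ha' : ∀ p q, p ≠ q → a p ≠ a q := fun p q hpq e => hpq (h.inja e)
  exact Or.inr (cl5_mk (hz 0) (h.adj 0 l) (hb l m hlm) (h.adj 1 m).symm (h.adj 1 k)
    (hzb l) (hzb m) (hz 1).ne hzk (hab 0 m) (ha' _ _ (by decide)) (hab 0 k) (hab 1 l).symm
    (hb l k hlk).ne (hb m k hmk).ne)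

/-- Every vertex is joined to the whole core. -/
def Full (G : SimpleGraph V) (a b : Fin 3 → V) : Prop :=
  ∀ z, (∀ i, z ≠ a i → G.Adj z (a i)) ∧ (∀ j, z ≠ b j → G.Adj z (b j))

theorem full_step {G : SimpleGraph V} {a b : Fin 3 → V} (h : Core G a b)
    (hb : ∀ i j, i ≠ j → G.Adj (b i) (b j)) (hall : ∀ z, Typed G a b z) :
    Full (c6Step G) a b := by
  intro z
  rcases hall z with hz | hz
  · exact ⟨fun i hi => join_core h hb hz i hi, fun j _ => Or.inl (hz j)⟩
  · exact ⟨fun i _ => Or.inl (hz i), fun j hj => join_core' h hb hz j hj⟩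

theorem top_step {G : SimpleGraph V} {a b : Fin 3 → V} (h : Core G a b) (hf : Full G a b) :
    c6Step G = ⊤ := by
  rw [eq_top_iff]
  intro z w hzw
  rw [top_adj] at hzw
  by_cases hza : ∃ i, z = a i
  · obtain ⟨i, rfl⟩ := hza
    exact Or.inl ((hf w).1 i hzw.symm).symm
  by_cases hzb : ∃ i, z = b i
  · obtain ⟨i, rfl⟩ := hzb
    exact Or.inl ((hf w).2 i hzw.symm).symm
  by_cases hwa : ∃ i, w = a i
  · obtain ⟨i, rfl⟩ := hwa
    exact Or.inl ((hf z).1 i hzw)
  by_cases hwb : ∃ i, w = b i
  · obtain ⟨i, rfl⟩ := hwb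
    exact Or.inl ((hf z).2 i hzw)
  push Not at hza hzb hwa hwb
  have ha' : ∀ p q, p ≠ q → a p ≠ a q := fun p q hpq e => hpq (h.inja e)
  have hb' : ∀ p q, p ≠ q → b p ≠ b q := fun p q hpq e => hpq (h.injb e)
  have hab : ∀ i j, a i ≠ b j := fun i j => (h.adj i j).ne
  exact Or.inr (cl5_mk ((hf z).1 0 (hza 0)) (h.adj 0 0) (h.adj 1 0).symm (h.adj 1 1)
    ((hf w).2 1 (hwb 1)).symm (hzb 0) (hza 1) (hzb 1) hzw (ha' _ _ (by decide)) (hab 0 1)
    (hwa 0).symm (hb' _ _ (by decide)) (hwb 0).symm (hwa 1).symm)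

theorem step_top : c6Step (⊤ : SimpleGraph V) = ⊤ := by
  rw [eq_top_iff]
  exact le_c6Step _

/-- If some edge joins two vertices of type `A` then three rounds make the graph complete. -/
theorem complete_of_edge {G : SimpleGraph V} {a b : Fin 3 → V} (h : Core G a b)
    (hall : ∀ z, Typed G a b z) {z w : V} (hzw : G.Adj z w) (hz : To G b z) (hw : To G b w) :
    c6Proc G 3 = ⊤ := by
  have h1 : Core (c6Step G) a b := h.mono (le_c6Step G)
  have hb := triangle_of_edge h hzw hz hw
  have hall1 : ∀ z, Typed (c6Step G) a b z := by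
    intro z
    rcases hall z with hz | hz
    · exact Or.inl (hz.mono (le_c6Step G))
    · exact Or.inr (hz.mono (le_c6Step G))
  have hf := full_step h1 hb hall1
  have h2 : Core (c6Step (c6Step G)) a b := h1.mono (le_c6Step _)
  exact top_step h2 hf

theorem colour_step {G : SimpleGraph V} {A : V → Prop} (h : ∀ z w, G.Adj z w → (A z ↔ ¬ A w)) :
    ∀ z w, (c6Step G).Adj z w → (A z ↔ ¬ A w) := by
  intro z w hzw
  rcases hzw with hzw | ⟨a, b, c, d, h0, h1, h2, h3, h4, h5⟩
  · exact h z w hzw
  · have e1 := h _ _ h1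
    have e2 := h _ _ h2
    have e3 := h _ _ h3
    have e4 := h _ _ h4
    have e5 := h _ _ h5
    tauto

/-- All vertices typed: stable after three rounds. -/
theorem finish {G : SimpleGraph V} {a b : Fin 3 → V} (h : Core G a b)
    (hall : ∀ z, Typed G a b z) : c6Proc G 3 = c6Proc G 4 := by
  by_cases hA : ∃ z w, G.Adj z w ∧ To G b z ∧ To G b w
  · obtain ⟨z, w, hzw, hz, hw⟩ := hA
    have h3 := complete_of_edge h hall hzw hz hw
    have h4 : c6Proc G (3 + 1) = ⊤ := by rw [c6Proc_succ, h3, step_top]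
    rw [h3]
    exact h4.symm
  by_cases hB : ∃ z w, G.Adj z w ∧ To G a z ∧ To G a w
  · obtain ⟨z, w, hzw, hz, hw⟩ := hB
    have h3 := complete_of_edge h.swap (fun z => (hall z).symm) hzw hz hw
    have h4 : c6Proc G (3 + 1) = ⊤ := by rw [c6Proc_succ, h3, step_top]
    rw [h3]
    exact h4.symm
  push Not at hA hB
  have hcol : ∀ z w, G.Adj z w → (To G b z ↔ ¬ To G b w) := by
    intro z w hzw
    constructor
    · intro hz
      exact hA z w hzw hz
    · intro hw
      rcases hall z with hz | hz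
      · exact hz
      · rcases hall w with hw' | hw'
        · exact absurd hw' hw
        · exact absurd hw' (hB z w hzw hz)
  have hcol1 := colour_step hcol
  have hcol2 := colour_step hcol1
  have hst : c6Proc G 1 = c6Proc G 2 := by
    apply le_antisymm (c6Proc_mono G (by omega))
    intro z w hzw
    have hc := hcol2 z w hzw
    -- the complete bipartite graph
    have key : ∀ z w, To G b z → ¬ To G b w → (c6Step G).Adj z w := by
      intro z w hz hw
      have hw' : To G a w := by
        rcases hall w with h' | h'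
        · exact absurd h' hw
        · exact h'
      have hzw : z ≠ w := by
        rintro rfl
        exact hw hz
      obtain ⟨i, j, hij, hi, hj⟩ := avoid_one h.injb w
      obtain ⟨k, l, hkl, hk, hl⟩ := avoid_one h.inja z
      have ha' : ∀ p q, p ≠ q → a p ≠ a q := fun p q hpq e => hpq (h.inja e)
      have hb' : ∀ p q, p ≠ q → b p ≠ b q := fun p q hpq e => hpq (h.injb e)
      have hab : ∀ i j, a i ≠ b j := fun i j => (h.adj i j).ne
      exact Or.inr (cl5_mk (hz i) (h.adj k i).symm (h.adj k j) (h.adj l j).symm (hw' l).symm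
        hk.symm (hz j).ne hl.symm hzw (hb' _ _ hij) (hab l i).symm hi (ha' _ _ hkl)
        (hw' k).ne.symm hj)
    by_cases hz : To G b z
    · exact key z w hz (hc.mp hz)
    · have hw : To G b w := by
        by_contra hw
        exact hz (hc.mpr hw)
      exact (key w z hw hz).symm
  exact c6Proc_stable' hst (by omega)

/-- A 6-cycle with an outside neighbour gives a `K_{3,3}` two rounds later. -/
theorem core_of_cycle {G : SimpleGraph V} {v : Fin 6 → V} {w : V} (hv : Function.Injective v)
    (hc : ∀ i, G.Adj (v i) (v (i + 1))) (hw : ∀ i, w ≠ v i) (h0 : G.Adj w (v 0)) :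
    ∃ a b, Core (c6Step (c6Step G)) a b := by
  have hne : ∀ i j, i ≠ j → v i ≠ v j := fun i j hij e => hij (hv e)
  have c01 : G.Adj (v 0) (v 1) := hc 0
  have c12 : G.Adj (v 1) (v 2) := hc 1
  have c23 : G.Adj (v 2) (v 3) := hc 2
  have c34 : G.Adj (v 3) (v 4) := hc 3
  have c45 : G.Adj (v 4) (v 5) := hc 4
  have c50 : G.Adj (v 5) (v 0) := hc 5
  have w2 : (c6Step G).Adj w (v 2) := Or.inr (cl5_mk h0 c50.symm c45.symm c34.symm c23.symm
    (hw _) (hw _) (hw _) (hw _) (hne _ _ (by decide)) (hne _ _ (by decide)) (hne _ _ (by decide))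
    (hne _ _ (by decide)) (hne _ _ (by decide)) (hne _ _ (by decide)))
  have w4 : (c6Step G).Adj w (v 4) := Or.inr (cl5_mk h0 c01 c12 c23 c34
    (hw _) (hw _) (hw _) (hw _) (hne _ _ (by decide)) (hne _ _ (by decide)) (hne _ _ (by decide))
    (hne _ _ (by decide)) (hne _ _ (by decide)) (hne _ _ (by decide)))
  have w0 : (c6Step G).Adj w (v 0) := Or.inl h0
  have hle := le_c6Step G
  have e03 : (c6Step (c6Step G)).Adj (v 0) (v 3) := Or.inr (cl5_mk (hle c01) (hle c12) w2.symm w4
    (hle c34.symm) (hne _ _ (by decide)) (hw _).symm (hne _ _ (by decide)) (hne _ _ (by decide))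
    (hw _).symm (hne _ _ (by decide)) (hne _ _ (by decide)) (hne _ _ (by decide))
    (hne _ _ (by decide)) (hw _))
  have e14 : (c6Step (c6Step G)).Adj (v 1) (v 4) := Or.inr (cl5_mk (hle c12) w2.symm w0
    (hle c50.symm) (hle c45.symm) (hw _).symm (hne _ _ (by decide)) (hne _ _ (by decide))
    (hne _ _ (by decide)) (hne _ _ (by decide)) (hne _ _ (by decide)) (hne _ _ (by decide))
    (hw _) (hw _) (hne _ _ (by decide)))
  have e25 : (c6Step (c6Step G)).Adj (v 2) (v 5) := Or.inr (cl5_mk (hle c12.symm) (hle c01.symm)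
    w0.symm w4 (hle c45) (hne _ _ (by decide)) (hw _).symm (hne _ _ (by decide))
    (hne _ _ (by decide)) (hw _).symm (hne _ _ (by decide)) (hne _ _ (by decide))
    (hne _ _ (by decide)) (hne _ _ (by decide)) (hw _))
  have hle2 : G ≤ c6Step (c6Step G) := hle.trans (le_c6Step _)
  refine ⟨![v 0, v 2, v 4], ![v 1, v 3, v 5], ?_, ?_, ?_⟩
  · intro i j hij
    fin_cases i <;> fin_cases j <;> first | rfl | exact absurd hij (hne _ _ (by decide))
  · intro i j hij
    fin_cases i <;> fin_cases j <;> first | rfl | exact absurd hij (hne _ _ (by decide))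
  · intro i j
    fin_cases i <;> fin_cases j
    · exact hle2 c01
    · exact e03
    · exact hle2 c50.symm
    · exact hle2 c12.symm
    · exact hle2 c23
    · exact e25
    · exact e14.symm
    · exact hle2 c34.symm
    · exact hle2 c45

theorem exists_outside [Fintype V] {G : SimpleGraph V} (hG : G.Connected)
    (hcard : 7 ≤ Fintype.card V) (v : Fin 6 → V) : ∃ w i, (∀ j, w ≠ v j) ∧ G.Adj w (v i) := by
  classical
  obtain ⟨z, hz⟩ : ∃ z, z ∉ Set.range v := by
    by_contra hcon
    push Not at hcon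
    have hsurj : Function.Surjective v := fun z => hcon z
    have := Fintype.card_le_of_surjective v hsurj
    rw [Fintype.card_fin] at this
    omega
  obtain ⟨p⟩ := hG (v 0) z
  obtain ⟨d, -, hd1, hd2⟩ := p.exists_boundary_dart (Set.range v) ⟨0, rfl⟩ hz
  obtain ⟨i, hi⟩ := hd1
  refine ⟨d.snd, i, ?_, ?_⟩
  · intro j h
    exact hd2 ⟨j, h.symm⟩
  · rw [hi]
    exact d.adj.symm

theorem core_of_unstable [Fintype V] {G : SimpleGraph V} (hG : G.Connected)
    (hcard : 7 ≤ Fintype.card V) (hne : G ≠ c6Step G) : ∃ a b, Core (c6Proc G 3) a b := by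
  have hex : ∃ u w, (c6Step G).Adj u w ∧ ¬ G.Adj u w := by
    by_contra hcon
    push Not at hcon
    exact hne (le_antisymm (le_c6Step G) (fun u w h => hcon u w h))
  obtain ⟨u, w, huw, hn⟩ := hex
  have hcl : Cl5 G u w := by
    rcases huw with h | h
    · exact absurd h hn
    · exact h
  obtain ⟨a, b, c, d, h0, h1, h2, h3, h4, h5⟩ := hcl
  have hinj : Function.Injective ![u, a, b, c, d, w] := by
    rw [← List.nodup_ofFn]
    simpa using h0
  have hle := le_c6Step G
  have hcyc : ∀ i, (c6Step G).Adj (![u, a, b, c, d, w] i) (![u, a, b, c, d, w] (i + 1)) := by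
    intro i
    fin_cases i
    · exact hle h1
    · exact hle h2
    · exact hle h3
    · exact hle h4
    · exact hle h5
    · exact huw.symm
  set v := ![u, a, b, c, d, w] with hv
  obtain ⟨z, i, hz, hzi⟩ := exists_outside (hG.mono hle) hcard v
  have := core_of_cycle (G := c6Step G) (v := fun j => v (j + i)) (w := z)
    (fun p q hpq => add_right_cancel (hinj hpq))
    (fun j => by
      have e : j + 1 + i = (j + i) + 1 := by abel
      show (c6Step G).Adj (v (j + i)) (v (j + 1 + i))
      rw [e]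
      exact hcyc _)
    (fun j => hz _) (by simpa using hzi)
  exact this

/-- A connected graph with at least seven vertices and diameter at most four stabilises within
ten rounds. -/
theorem stable_large [Fintype V] {G : SimpleGraph V} (hG : G.Connected)
    (hcard : 7 ≤ Fintype.card V) (hd : ∀ u v, G.dist u v ≤ 4) : c6Proc G 10 = c6Proc G 11 := by
  by_cases hst : G = c6Step G
  · have h0 : c6Proc G 0 = c6Proc G 1 := hst
    exact c6Proc_stable' h0 (by omega)
  obtain ⟨a, b, hcore⟩ := core_of_unstable hG hcard hst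
  have hall : ∀ z, Typed (c6Proc (c6Proc G 3) 4) a b z := by
    intro z
    have hconn : (c6Proc G 3).Connected := conn_proc hG 3
    obtain ⟨p, hp⟩ := hconn.exists_walk_length_eq_dist z (a 0)
    have h1 : (c6Proc G 3).dist z (a 0) ≤ G.dist z (a 0) :=
      (hG z (a 0)).dist_anti (c6Proc_mono G (Nat.zero_le 3))
    have h2 := hd z (a 0)
    exact typed_walk hcore 4 z p (by omega)
  have hcore4 : Core (c6Proc (c6Proc G 3) 4) a b := hcore.mono (c6Proc_mono _ (Nat.zero_le 4))
  have hfin := finish hcore4 hall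
  have e1 : c6Proc G 10 = c6Proc (c6Proc (c6Proc G 3) 4) 3 := by
    rw [← c6Proc_add, ← c6Proc_add]
  have e2 : c6Proc G 11 = c6Proc (c6Proc (c6Proc G 3) 4) 4 := by
    rw [← c6Proc_add, ← c6Proc_add]
  rw [e1, e2]
  exact hfin

/-- Connected graphs: stable at time `i + 36` as soon as `|V| ≤ 5 ^ i`. -/
theorem stable_conn [Fintype V] {G : SimpleGraph V} (hG : G.Connected) {i : ℕ}
    (hi : Fintype.card V ≤ 5 ^ i) : c6Proc G (i + 36) = c6Proc G (i + 36 + 1) := by
  by_cases hcard : 7 ≤ Fintype.card V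
  · have h1 := stable_large (conn_proc hG i) hcard (dist_small hG hi)
    rw [← c6Proc_add, ← c6Proc_add] at h1
    exact c6Proc_stable' (t := i + 10) h1 (by omega)
  · push Not at hcard
    have h1 := stable_by_count G
    have h2 : Fintype.card V ^ 2 ≤ 36 := by
      have : Fintype.card V ≤ 6 := by omega
      calc Fintype.card V ^ 2 ≤ 6 ^ 2 := Nat.pow_le_pow_left this 2
        _ = 36 := by norm_num
    exact c6Proc_stable' h1 (by omega)

/-- The process for the 6-cycle stabilises at time `i + 36` as soon as `|V| ≤ 5 ^ i`. -/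
theorem c6_stable [Fintype V] (G : SimpleGraph V) {i : ℕ}
    (hi : Fintype.card V ≤ 5 ^ i) : c6Proc G (i + 36) = c6Proc G (i + 36 + 1) := by
  classical
  apply stable_of_components
  intro C hC
  apply stable_conn hC
  exact (Fintype.card_subtype_le _).trans hi

end Pool.Agent.R792
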