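import Mathlib
import Pool.Agent.R792.Wheel

/-!
Finite checks for the chain of wheels.
-/

namespace Pool.Agent.R792

open SimpleGraph

/-- Neighbours in the infinite chain graph on the integers. -/
def nb (v : ℤ) : List ℤ :=
  if v % 5 = 0 then [v - 3, v - 1, v + 1, v + 2, v + 4]
  else if v % 5 = 1 then [v - 3, v - 2, v - 1, v + 2, v + 3]
  else if v % 5 = 2 then [v - 2, v + 2, v + 3]
  else if v % 5 = 3 then [v - 2, v + 1, v + 3]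
  else [v - 4, v - 3, v - 2, v - 1, v + 1, v + 2]

theorem mem_nb (v w : ℤ) : w ∈ nb v ↔
    (v % 5 = 0 ∧ (w = v - 3 ∨ w = v - 1 ∨ w = v + 1 ∨ w = v + 2 ∨ w = v + 4)) ∨
    (v % 5 = 1 ∧ (w = v - 3 ∨ w = v - 2 ∨ w = v - 1 ∨ w = v + 2 ∨ w = v + 3)) ∨
    (v % 5 = 2 ∧ (w = v - 2 ∨ w = v + 2 ∨ w = v + 3)) ∨
    (v % 5 = 3 ∧ (w = v - 2 ∨ w = v + 1 ∨ w = v + 3)) ∨
    (v % 5 = 4 ∧ (w = v - 4 ∨ w = v - 3 ∨ w = v - 2 ∨ w = v - 1 ∨ w = v + 1 ∨ w = v + 2)) := by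
  unfold nb
  split_ifs with h0 h1 h2 h3
  · simp [h0]
  · simp [h1]
  · simp [h2]
  · simp [h3]
  · have h4 : v % 5 = 4 := by omega
    simp [h4]

theorem nb_symm {v w : ℤ} (h : w ∈ nb v) : v ∈ nb w := by
  rw [mem_nb] at h ⊢
  omega

theorem nb_shift (v w q : ℤ) : w + 5 * q ∈ nb (v + 5 * q) ↔ w ∈ nb v := by
  rw [mem_nb, mem_nb]
  omega

set_option synthInstance.maxSize 100000 in
set_option maxRecDepth 100000 in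
theorem spoke_fin : ∀ y ∈ ([0, 1, 2, 3, 4] : List ℤ), ∀ r0 ∈ nb y,
    ∀ r1 ∈ nb r0, r1 ∈ nb y → 
    ∀ r2 ∈ nb r1, r2 ∈ nb y → r2 ≠ r0 →
    ∀ r3 ∈ nb r2, r3 ∈ nb y → r3 ≠ r1 → r3 ≠ r0 →
    ∀ r4 ∈ nb r3, r4 ∈ nb y → r4 ≠ r2 → r4 ≠ r1 → r4 ≠ r0 →
    ∀ r5 ∈ nb r4, r5 ∈ nb r0 → r5 ≠ y → r5 ≠ r3 → r5 ≠ r2 → r5 ≠ r1 → r5 ∈ nb y := by
  decide +kernel

set_option synthInstance.maxSize 100000 in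
set_option maxRecDepth 100000 in
theorem rim_fin : ∀ y ∈ ([0, 1, 2, 3, 4] : List ℤ), ∀ r0 ∈ nb y,
    ∀ r1 ∈ nb r0, r1 ∈ nb y → 
    ∀ r2 ∈ nb r1, r2 ∈ nb y → r2 ≠ r0 →
    ∀ r3 ∈ nb r2, r3 ∈ nb y → r3 ≠ r1 → r3 ≠ r0 →
    ∀ r4 ∈ nb r3, r4 ∈ nb y → r4 ≠ r2 → r4 ≠ r1 → r4 ≠ r0 →
    ∀ r5 ∈ nb r4, r5 ∈ nb y → r5 ≠ r3 → r5 ≠ r2 → r5 ≠ r1 → r5 ≠ r0 → r5 ∈ nb r0 ∧ y = 4 ∧
      ((0, 1) ∈ [(r0, r1), (r1, r2), (r2, r3), (r3, r4), (r4, r5), (r5, r0)] ∨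
       (1, 0) ∈ [(r0, r1), (r1, r2), (r2, r3), (r3, r4), (r4, r5), (r5, r0)]) ∧
      ((5, 6) ∈ [(r0, r1), (r1, r2), (r2, r3), (r3, r4), (r4, r5), (r5, r0)] ∨
       (6, 5) ∈ [(r0, r1), (r1, r2), (r2, r3), (r3, r4), (r4, r5), (r5, r0)]) := by
  decide +kernel

end Pool.Agent.R792
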