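import Mathlib
import Pool.Agent.R792.ChainFin

/-!
The chain of wheels: `M_{W_6}(5 k + 2) ≥ k`.
-/

namespace Pool.Agent.R792

open SimpleGraph

theorem fin_aux1 : ∀ i i0 : Fin 6, i + (i0 - 5) = i0 → i = 5 := by decide

theorem fin_aux2 : ∀ i0 : Fin 6, (0 : Fin 6) + (i0 - 5) = i0 + 1 := by decide

theorem fin_aux3 : ∀ i0 : Fin 6, i0 + 1 + 1 = i0 → False := by decide

theorem nb_shift' (_ q : ℤ) (w v : ℤ) (h : w ∈ nb v) : w - 5 * q ∈ nb (v - 5 * q) := by
  rw [mem_nb] at h ⊢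
  omega

theorem nb_unshift (q : ℤ) (w v : ℤ) (h : w - 5 * q ∈ nb (v - 5 * q)) : w ∈ nb v := by
  rw [mem_nb] at h ⊢
  omega

theorem mod_mem (y : ℤ) : y - 5 * (y / 5) ∈ ([0, 1, 2, 3, 4] : List ℤ) := by
  simp only [List.mem_cons, List.not_mem_nil, or_false]
  omega

/-- A wheel with all edges except possibly the spoke to `r 5` in the chain has this spoke too. -/
theorem spoke_gen (y : ℤ) (r : Fin 6 → ℤ) (hinj : Function.Injective r) (hne : r 5 ≠ y)
    (hs : ∀ i, i ≠ 5 → r i ∈ nb y) (hr : ∀ i, r (i + 1) ∈ nb (r i)) : r 5 ∈ nb y := by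
  have hd : ∀ i j : Fin 6, i ≠ j → r i - 5 * (y / 5) ≠ r j - 5 * (y / 5) := by
    intro i j hij h
    apply hij
    apply hinj
    linarith
  apply nb_unshift (y / 5)
  refine spoke_fin (y - 5 * (y / 5)) (mod_mem y)
    (r 0 - 5 * (y / 5)) (nb_shift' y _ _ _ (hs 0 (by decide)))
    (r 1 - 5 * (y / 5)) (nb_shift' y _ _ _ (hr 0)) (nb_shift' y _ _ _ (hs 1 (by decide)))
    (r 2 - 5 * (y / 5)) (nb_shift' y _ _ _ (hr 1)) (nb_shift' y _ _ _ (hs 2 (by decide)))
    (hd _ _ (by decide))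
    (r 3 - 5 * (y / 5)) (nb_shift' y _ _ _ (hr 2)) (nb_shift' y _ _ _ (hs 3 (by decide)))
    (hd _ _ (by decide)) (hd _ _ (by decide))
    (r 4 - 5 * (y / 5)) (nb_shift' y _ _ _ (hr 3)) (nb_shift' y _ _ _ (hs 4 (by decide)))
    (hd _ _ (by decide)) (hd _ _ (by decide)) (hd _ _ (by decide))
    (r 5 - 5 * (y / 5)) (nb_shift' y _ _ _ (hr 4)) (nb_shift' y _ _ _ (nb_symm (hr 5)))
    (by intro h; exact hne (by linarith)) (hd _ _ (by decide)) (hd _ _ (by decide))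
    (hd _ _ (by decide))

/-- A wheel with all edges except possibly the rim edge `r 5, r 0` in the chain. -/
theorem rim_gen (y : ℤ) (r : Fin 6 → ℤ) (hinj : Function.Injective r)
    (hs : ∀ i, r i ∈ nb y) (hr : ∀ i, i ≠ 5 → r (i + 1) ∈ nb (r i)) :
    r 0 ∈ nb (r 5) ∧ y % 5 = 4 ∧
      (∃ i, (r i = y - 4 ∧ r (i + 1) = y - 3) ∨ (r i = y - 3 ∧ r (i + 1) = y - 4)) ∧
      (∃ i, (r i = y + 1 ∧ r (i + 1) = y + 2) ∨ (r i = y + 2 ∧ r (i + 1) = y + 1)) := by
  have hd : ∀ i j : Fin 6, i ≠ j → r i - 5 * (y / 5) ≠ r j - 5 * (y / 5) := by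
    intro i j hij h
    apply hij
    apply hinj
    linarith
  have key := rim_fin (y - 5 * (y / 5)) (mod_mem y)
    (r 0 - 5 * (y / 5)) (nb_shift' y _ _ _ (hs 0))
    (r 1 - 5 * (y / 5)) (nb_shift' y _ _ _ (hr 0 (by decide))) (nb_shift' y _ _ _ (hs 1))
    (r 2 - 5 * (y / 5)) (nb_shift' y _ _ _ (hr 1 (by decide))) (nb_shift' y _ _ _ (hs 2))
    (hd _ _ (by decide))
    (r 3 - 5 * (y / 5)) (nb_shift' y _ _ _ (hr 2 (by decide))) (nb_shift' y _ _ _ (hs 3))
    (hd _ _ (by decide)) (hd _ _ (by decide))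
    (r 4 - 5 * (y / 5)) (nb_shift' y _ _ _ (hr 3 (by decide))) (nb_shift' y _ _ _ (hs 4))
    (hd _ _ (by decide)) (hd _ _ (by decide)) (hd _ _ (by decide))
    (r 5 - 5 * (y / 5)) (nb_shift' y _ _ _ (hr 4 (by decide))) (nb_shift' y _ _ _ (hs 5))
    (hd _ _ (by decide)) (hd _ _ (by decide))
    (hd _ _ (by decide)) (hd _ _ (by decide))
  obtain ⟨h1, h2, h3, h4⟩ := key
  have e0 : (0 : Fin 6) + 1 = 1 := by decide
  have e1 : (1 : Fin 6) + 1 = 2 := by decide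
  have e2 : (2 : Fin 6) + 1 = 3 := by decide
  have e3 : (3 : Fin 6) + 1 = 4 := by decide
  have e4 : (4 : Fin 6) + 1 = 5 := by decide
  have e5 : (5 : Fin 6) + 1 = 0 := by decide
  refine ⟨nb_symm (nb_unshift _ _ _ h1), by omega, ?_, ?_⟩
  · simp only [List.mem_cons, Prod.mk.injEq, List.not_mem_nil, or_false] at h3
    rcases h3 with h3 | h3
    · rcases h3 with h | h | h | h | h | h
      · exact ⟨0, Or.inl (by rw [e0]; constructor <;> omega)⟩
      · exact ⟨1, Or.inl (by rw [e1]; constructor <;> omega)⟩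
      · exact ⟨2, Or.inl (by rw [e2]; constructor <;> omega)⟩
      · exact ⟨3, Or.inl (by rw [e3]; constructor <;> omega)⟩
      · exact ⟨4, Or.inl (by rw [e4]; constructor <;> omega)⟩
      · exact ⟨5, Or.inl (by rw [e5]; constructor <;> omega)⟩
    · rcases h3 with h | h | h | h | h | h
      · exact ⟨0, Or.inr (by rw [e0]; constructor <;> omega)⟩
      · exact ⟨1, Or.inr (by rw [e1]; constructor <;> omega)⟩
      · exact ⟨2, Or.inr (by rw [e2]; constructor <;> omega)⟩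
      · exact ⟨3, Or.inr (by rw [e3]; constructor <;> omega)⟩
      · exact ⟨4, Or.inr (by rw [e4]; constructor <;> omega)⟩
      · exact ⟨5, Or.inr (by rw [e5]; constructor <;> omega)⟩
  · simp only [List.mem_cons, Prod.mk.injEq, List.not_mem_nil, or_false] at h4
    rcases h4 with h3 | h3
    · rcases h3 with h | h | h | h | h | h
      · exact ⟨0, Or.inl (by rw [e0]; constructor <;> omega)⟩
      · exact ⟨1, Or.inl (by rw [e1]; constructor <;> omega)⟩
      · exact ⟨2, Or.inl (by rw [e2]; constructor <;> omega)⟩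
      · exact ⟨3, Or.inl (by rw [e3]; constructor <;> omega)⟩
      · exact ⟨4, Or.inl (by rw [e4]; constructor <;> omega)⟩
      · exact ⟨5, Or.inl (by rw [e5]; constructor <;> omega)⟩
    · rcases h3 with h | h | h | h | h | h
      · exact ⟨0, Or.inr (by rw [e0]; constructor <;> omega)⟩
      · exact ⟨1, Or.inr (by rw [e1]; constructor <;> omega)⟩
      · exact ⟨2, Or.inr (by rw [e2]; constructor <;> omega)⟩
      · exact ⟨3, Or.inr (by rw [e3]; constructor <;> omega)⟩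
      · exact ⟨4, Or.inr (by rw [e4]; constructor <;> omega)⟩
      · exact ⟨5, Or.inr (by rw [e5]; constructor <;> omega)⟩

/-- General position of the missing spoke. -/
theorem spoke_any (y : ℤ) (r : Fin 6 → ℤ) (hinj : Function.Injective r) (i0 : Fin 6)
    (hne : r i0 ≠ y) (hs : ∀ i, i ≠ i0 → r i ∈ nb y) (hr : ∀ i, r (i + 1) ∈ nb (r i)) :
    r i0 ∈ nb y := by
  have h := spoke_gen y (fun i => r (i + (i0 - 5))) ?_ ?_ ?_ ?_
  · simpa using h
  · intro i j hij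
    exact add_right_cancel (hinj hij)
  · simpa using hne
  · intro i hi
    apply hs
    intro h
    exact hi (fin_aux1 i i0 h)
  · intro i
    have e : i + 1 + (i0 - 5) = (i + (i0 - 5)) + 1 := by abel
    show r (i + 1 + (i0 - 5)) ∈ nb (r (i + (i0 - 5)))
    rw [e]
    exact hr _

theorem rim_any (y : ℤ) (r : Fin 6 → ℤ) (hinj : Function.Injective r) (i0 : Fin 6)
    (hs : ∀ i, r i ∈ nb y) (hr : ∀ i, i ≠ i0 → r (i + 1) ∈ nb (r i)) :
    r (i0 + 1) ∈ nb (r i0) := by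
  have h := rim_gen y (fun i => r (i + (i0 - 5))) ?_ ?_ ?_
  · have h1 := h.1
    have e : (0 : Fin 6) + (i0 - 5) = i0 + 1 := fin_aux2 i0
    have e2 : (5 : Fin 6) + (i0 - 5) = i0 := by abel
    simp only [e, e2] at h1
    exact h1
  · intro i j hij
    exact add_right_cancel (hinj hij)
  · intro i
    exact hs _
  · intro i hi
    have e : i + 1 + (i0 - 5) = (i + (i0 - 5)) + 1 := by abel
    show r (i + 1 + (i0 - 5)) ∈ nb (r (i + (i0 - 5)))
    rw [e]
    apply hr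
    intro h
    exact hi (fin_aux1 i i0 h)

/-- Adjacency in the host graph at time `t`. -/
def chainAdj (t : ℕ) (v w : ℤ) : Prop :=
  w ∈ nb v ∧ (v % 5 = 0 → w = v + 1 → v ≤ 5 * t) ∧ (w % 5 = 0 → v = w + 1 → w ≤ 5 * t)

theorem chainAdj_symm {t : ℕ} {v w : ℤ} (h : chainAdj t v w) : chainAdj t w v :=
  ⟨nb_symm h.1, h.2.2, h.2.1⟩

theorem chainAdj_ne {t : ℕ} {v w : ℤ} (h : chainAdj t v w) : v ≠ w := by
  have h1 := h.1
  rw [mem_nb] at h1
  omega

theorem chainAdj_mono {t : ℕ} {v w : ℤ} (h : chainAdj t v w) : chainAdj (t + 1) v w := by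
  obtain ⟨h1, h2, h3⟩ := h
  refine ⟨h1, ?_, ?_⟩
  · intro a b
    have := h2 a b
    push_cast
    omega
  · intro a b
    have := h3 a b
    push_cast
    omega

/-- The host graph at time `t`. -/
def chainG (k t : ℕ) : SimpleGraph (Fin (5 * k + 2)) where
  Adj v w := chainAdj t (v.val : ℤ) (w.val : ℤ)
  symm := ⟨fun _ _ h => chainAdj_symm h⟩
  loopless := ⟨fun _ h => chainAdj_ne h rfl⟩

theorem chainG_adj (k t : ℕ) (v w : Fin (5 * k + 2)) :
    (chainG k t).Adj v w ↔ chainAdj t (v.val : ℤ) (w.val : ℤ) := Iff.rfl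

theorem chain_closed {k t : ℕ} {a b : Fin (5 * k + 2)} (hab : a ≠ b)
    (hn : ¬ (chainG k t).Adj a b) (hc : Closes wheel6 (chainG k t) a b) :
    (chainG k (t + 1)).Adj a b := by
  rw [closes_wheel_iff] at hc
  obtain ⟨y, r, hw, hu⟩ := hc
  have hinj : Function.Injective (fun i => ((r i).val : ℤ)) := by
    intro i j h
    have h' : ((r i).val : ℤ) = ((r j).val : ℤ) := h
    apply hw.inj
    apply Fin.ext
    exact_mod_cast h'
  have hval : ∀ v w : Fin (5 * k + 2), ((v.val : ℤ) = (w.val : ℤ)) → v = w := by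
    intro v w h
    apply Fin.ext
    exact_mod_cast h
  -- first: the pair is an edge of the chain
  have hB : (b.val : ℤ) ∈ nb (a.val : ℤ) := by
    rcases hu with ⟨i0, hu⟩ | ⟨i0, hu⟩
    · have h := spoke_any (y.val : ℤ) (fun i => ((r i).val : ℤ)) hinj i0 ?_ ?_ ?_
      · rcases hu with ⟨h1, h2⟩ | ⟨h1, h2⟩
        · rw [← h1, ← h2]; exact h
        · rw [← h1, ← h2]; exact nb_symm h
      · intro h
        exact hw.ne i0 (hval _ _ h)
      · intro i hi
        have h1 := hw.spoke i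
        rw [sup_edge_adj] at h1
        rcases h1 with h1 | ⟨_, ⟨h2, h3⟩ | ⟨h2, h3⟩⟩
        · exact h1.1
        · exfalso
          rcases hu with ⟨h4, h5⟩ | ⟨h4, h5⟩
          · exact hi (hw.inj (h3.trans h5.symm))
          · exact hab (h2.symm.trans h4)
        · exfalso
          rcases hu with ⟨h4, h5⟩ | ⟨h4, h5⟩
          · exact hab (h4.symm.trans h2)
          · exact hi (hw.inj (h3.trans h5.symm))
      · intro i
        have h1 := hw.rim i
        rw [sup_edge_adj] at h1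
        rcases h1 with h1 | ⟨_, ⟨h2, h3⟩ | ⟨h2, h3⟩⟩
        · exact h1.1
        · exfalso
          rcases hu with ⟨h4, h5⟩ | ⟨h4, h5⟩
          · exact hw.ne i (h2.trans h4.symm)
          · exact hw.ne (i + 1) (h3.trans h4.symm)
        · exfalso
          rcases hu with ⟨h4, h5⟩ | ⟨h4, h5⟩
          · exact hw.ne (i + 1) (h3.trans h4.symm)
          · exact hw.ne i (h2.trans h4.symm)
    · have h := rim_any (y.val : ℤ) (fun i => ((r i).val : ℤ)) hinj i0 ?_ ?_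
      · rcases hu with ⟨h1, h2⟩ | ⟨h1, h2⟩
        · rw [← h1, ← h2]; exact h
        · rw [← h1, ← h2]; exact nb_symm h
      · intro i
        have h1 := hw.spoke i
        rw [sup_edge_adj] at h1
        rcases h1 with h1 | ⟨_, ⟨h2, h3⟩ | ⟨h2, h3⟩⟩
        · exact h1.1
        · exfalso
          rcases hu with ⟨h4, h5⟩ | ⟨h4, h5⟩
          · exact hw.ne _ (h4.trans h2.symm)
          · exact hw.ne _ (h5.trans h2.symm)
        · exfalso
          rcases hu with ⟨h4, h5⟩ | ⟨h4, h5⟩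
          · exact hw.ne _ (h5.trans h2.symm)
          · exact hw.ne _ (h4.trans h2.symm)
      · intro i hi
        have h1 := hw.rim i
        rw [sup_edge_adj] at h1
        rcases h1 with h1 | ⟨_, ⟨h2, h3⟩ | ⟨h2, h3⟩⟩
        · exact h1.1
        · exfalso
          rcases hu with ⟨h4, h5⟩ | ⟨h4, h5⟩
          · exact hi (hw.inj (h2.trans h4.symm))
          · have e1 : i = i0 + 1 := hw.inj (h2.trans h5.symm)
            have e2 : i + 1 = i0 := hw.inj (h3.trans h4.symm)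
            rw [e1] at e2
            exact fin_aux3 i0 e2
        · exfalso
          rcases hu with ⟨h4, h5⟩ | ⟨h4, h5⟩
          · have e1 : i = i0 + 1 := hw.inj (h2.trans h5.symm)
            have e2 : i + 1 = i0 := hw.inj (h3.trans h4.symm)
            rw [e1] at e2
            exact fin_aux3 i0 e2
          · exact hi (hw.inj (h2.trans h4.symm))
  -- second: all edges of the wheel are edges of the chain
  have hall : ∀ v w, (chainG k t ⊔ edge a b).Adj v w → (w.val : ℤ) ∈ nb (v.val : ℤ) := by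
    intro v w h
    rw [sup_edge_adj] at h
    rcases h with h | ⟨_, ⟨rfl, rfl⟩ | ⟨rfl, rfl⟩⟩
    · exact h.1
    · exact hB
    · exact nb_symm hB
  obtain ⟨-, hy, ⟨i, hi⟩, ⟨j, hj⟩⟩ := rim_gen (y.val : ℤ) (fun i => ((r i).val : ℤ)) hinj
    (fun i => hall _ _ (hw.spoke i)) (fun i _ => hall _ _ (hw.rim i))
  have hri := hw.rim i
  have hrj := hw.rim j
  rw [sup_edge_adj] at hri hrj
  simp only [chainG_adj, chainAdj] at hri hrj hn ⊢
  have hav : ∀ v : Fin (5 * k + 2), v = y ∨ (∃ i, v = r i) → (v.val : ℤ) = y.val ∨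
      (v.val : ℤ) ∈ nb (y.val : ℤ) := by
    rintro v (rfl | ⟨i, rfl⟩)
    · exact Or.inl rfl
    · exact Or.inr (hall _ _ (hw.spoke i))
  have ha : a = y ∨ ∃ i, a = r i := by
    rcases hu with ⟨i, ⟨h1, h2⟩ | ⟨h1, h2⟩⟩ | ⟨i, ⟨h1, h2⟩ | ⟨h1, h2⟩⟩
    · exact Or.inl h1.symm
    · exact Or.inr ⟨i, h2.symm⟩
    · exact Or.inr ⟨i, h1.symm⟩
    · exact Or.inr ⟨i + 1, h2.symm⟩
  have hb : b = y ∨ ∃ i, b = r i := by
    rcases hu with ⟨i, ⟨h1, h2⟩ | ⟨h1, h2⟩⟩ | ⟨i, ⟨h1, h2⟩ | ⟨h1, h2⟩⟩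
    · exact Or.inr ⟨i, h2.symm⟩
    · exact Or.inl h1.symm
    · exact Or.inr ⟨i + 1, h2.symm⟩
    · exact Or.inr ⟨i, h1.symm⟩
  have ha' := hav a ha
  have hb' := hav b hb
  rw [mem_nb] at ha' hb'
  have e1 : ∀ v w : Fin (5 * k + 2), v = w → (v.val : ℤ) = (w.val : ℤ) := by
    rintro v _ rfl; rfl
  have hri' : ((r (i + 1)).val : ℤ) ∈ nb ((r i).val : ℤ) ∧
        (((r i).val : ℤ) % 5 = 0 → ((r (i + 1)).val : ℤ) = (r i).val + 1 → ((r i).val : ℤ) ≤ 5 * t) ∧
        (((r (i + 1)).val : ℤ) % 5 = 0 → ((r i).val : ℤ) = (r (i + 1)).val + 1 →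
          ((r (i + 1)).val : ℤ) ≤ 5 * t) ∨
      (((r i).val : ℤ) = a.val ∧ ((r (i + 1)).val : ℤ) = b.val) ∨
      (((r i).val : ℤ) = b.val ∧ ((r (i + 1)).val : ℤ) = a.val) := by
    rcases hri with h | ⟨_, ⟨h1, h2⟩ | ⟨h1, h2⟩⟩
    · exact Or.inl h
    · exact Or.inr (Or.inl ⟨e1 _ _ h1, e1 _ _ h2⟩)
    · exact Or.inr (Or.inr ⟨e1 _ _ h1, e1 _ _ h2⟩)
  have hrj' : ((r (j + 1)).val : ℤ) ∈ nb ((r j).val : ℤ) ∧
        (((r j).val : ℤ) % 5 = 0 → ((r (j + 1)).val : ℤ) = (r j).val + 1 → ((r j).val : ℤ) ≤ 5 * t) ∧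
        (((r (j + 1)).val : ℤ) % 5 = 0 → ((r j).val : ℤ) = (r (j + 1)).val + 1 →
          ((r (j + 1)).val : ℤ) ≤ 5 * t) ∨
      (((r j).val : ℤ) = a.val ∧ ((r (j + 1)).val : ℤ) = b.val) ∨
      (((r j).val : ℤ) = b.val ∧ ((r (j + 1)).val : ℤ) = a.val) := by
    rcases hrj with h | ⟨_, ⟨h1, h2⟩ | ⟨h1, h2⟩⟩
    · exact Or.inl h
    · exact Or.inr (Or.inl ⟨e1 _ _ h1, e1 _ _ h2⟩)
    · exact Or.inr (Or.inr ⟨e1 _ _ h1, e1 _ _ h2⟩)
  refine ⟨hB, ?_, ?_⟩
  · intro h1 h2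
    push_cast
    have hnt : ¬ ((a.val : ℤ) ≤ 5 * t) := by
      intro h3
      apply hn
      refine ⟨hB, fun _ _ => h3, ?_⟩
      intro h4 h5
      omega
    clear hn hB
    rcases hi with ⟨hi1, hi2⟩ | ⟨hi1, hi2⟩ <;> rcases hj with ⟨hj1, hj2⟩ | ⟨hj1, hj2⟩ <;>
      rcases hri' with ⟨_, hx1, hx2⟩ | hx | hx <;> rcases hrj' with ⟨_, hz1, hz2⟩ | hz | hz <;>
      omega
  · intro h1 h2
    push_cast
    have hnt : ¬ ((b.val : ℤ) ≤ 5 * t) := by
      intro h3
      apply hn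
      refine ⟨hB, ?_, fun _ _ => h3⟩
      intro h4 h5
      omega
    clear hn hB
    rcases hi with ⟨hi1, hi2⟩ | ⟨hi1, hi2⟩ <;> rcases hj with ⟨hj1, hj2⟩ | ⟨hj1, hj2⟩ <;>
      rcases hri' with ⟨_, hx1, hx2⟩ | hx | hx <;> rcases hrj' with ⟨_, hz1, hz2⟩ | hz | hz <;>
      omega

end Pool.Agent.R792
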