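import Mathlib
import Pool.Agent.R792.Chain

/-!
The lower bound `M_{W_6}(5 k + 2) ≥ k`.
-/

namespace Pool.Agent.R792

open SimpleGraph

theorem closes_symm {W V : Type} {H : SimpleGraph W} {G : SimpleGraph V} {a b : V}
    (h : Closes H G a b) : Closes H G b a := by
  obtain ⟨φ, h1, h2, i, j, h3, h4, h5⟩ := h
  refine ⟨φ, h1, ?_, j, i, h3.symm, h5, h4⟩
  intro i j hij
  rw [edge_comm]
  exact h2 i j hij

/-- The rim of the `t`-th wheel of the chain. -/
def rimN (t : ℕ) : Fin 6 → ℕ := ![5 * t, 5 * t + 1, 5 * t + 3, 5 * t + 6, 5 * t + 5, 5 * t + 2]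

theorem rimN_lt {k t : ℕ} (ht : t < k) (i : Fin 6) : rimN t i < 5 * k + 2 := by
  fin_cases i <;> simp [rimN] <;> omega

theorem closes_rung {k t : ℕ} (ht : t < k) {a b : Fin (5 * k + 2)} (ha : a.val = 5 * t + 5)
    (hb : b.val = 5 * t + 6) : Closes wheel6 (chainG k t) a b := by
  rw [closes_wheel_iff]
  refine ⟨⟨5 * t + 4, by omega⟩, fun i => ⟨rimN t i, rimN_lt ht i⟩, ⟨?_, ?_, ?_, ?_⟩, ?_⟩
  · intro i j h
    have h' : rimN t i = rimN t j := congrArg Fin.val h
    fin_cases i <;> fin_cases j <;> simp [rimN] at h' ⊢ <;> omega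
  · intro i h
    have h' : rimN t i = 5 * t + 4 := congrArg Fin.val h
    fin_cases i <;> simp [rimN] at h'
  · intro i
    rw [sup_edge_adj]
    left
    rw [chainG_adj]
    unfold chainAdj
    rw [mem_nb]
    fin_cases i <;> simp [rimN] <;> omega
  · intro i
    rw [sup_edge_adj]
    by_cases hi : i = 3
    · right
      subst hi
      have e : (3 : Fin 6) + 1 = 4 := by decide
      rw [e]
      refine ⟨?_, Or.inr ⟨?_, ?_⟩⟩
      · intro h
        have h' : rimN t 3 = rimN t 4 := congrArg Fin.val h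
        simp [rimN] at h'
      · apply Fin.ext
        simp [rimN, hb]
      · apply Fin.ext
        simp [rimN, ha]
    · left
      rw [chainG_adj]
      unfold chainAdj
      rw [mem_nb]
      fin_cases i
      · simp [rimN]
      · simp [rimN]; omega
      · simp [rimN]; omega
      · simp at hi
      · simp [rimN]; omega
      · simp [rimN]
  · right
    refine ⟨3, Or.inr ⟨?_, ?_⟩⟩
    · apply Fin.ext
      simp [rimN, hb]
    · apply Fin.ext
      have e : (3 : Fin 6) + 1 = 4 := by decide
      rw [e]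
      simp [rimN, ha]

theorem chain_opens {k t : ℕ} (ht : t < k) {a b : Fin (5 * k + 2)}
    (h : (chainG k (t + 1)).Adj a b) (hn : ¬ (chainG k t).Adj a b) :
    Closes wheel6 (chainG k t) a b := by
  rw [chainG_adj] at h hn
  obtain ⟨h1, h2, h3⟩ := h
  push_cast at h2 h3
  by_cases hab : (a.val : ℤ) % 5 = 0 ∧ (b.val : ℤ) = a.val + 1 ∧ (a.val : ℤ) > 5 * t
  · obtain ⟨ha, hb, hc⟩ := hab
    have := h2 ha hb
    exact closes_rung ht (by omega) (by omega)
  · by_cases hba : (b.val : ℤ) % 5 = 0 ∧ (a.val : ℤ) = b.val + 1 ∧ (b.val : ℤ) > 5 * t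
    · obtain ⟨ha, hb, hc⟩ := hba
      have := h3 ha hb
      exact closes_symm (closes_rung ht (by omega) (by omega))
    · exfalso
      apply hn
      refine ⟨h1, ?_, ?_⟩
      · intro h4 h5
        by_contra h6
        exact hab ⟨h4, h5, by omega⟩
      · intro h4 h5
        by_contra h6
        exact hba ⟨h4, h5, by omega⟩

theorem chain_step {k t : ℕ} (ht : t < k) : bootStep wheel6 (chainG k t) = chainG k (t + 1) := by
  ext a b
  rw [bootStep_adj]
  constructor
  · rintro (h | ⟨h1, h2, h3⟩)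
    · exact chainAdj_mono h
    · exact chain_closed h1 h2 h3
  · intro h
    by_cases h1 : (chainG k t).Adj a b
    · exact Or.inl h1
    · exact Or.inr ⟨h.ne, h1, chain_opens ht h h1⟩

theorem chain_proc {k t : ℕ} (ht : t ≤ k) : bootProc wheel6 (chainG k 0) t = chainG k t := by
  induction t with
  | zero => rfl
  | succ t ih => rw [bootProc_succ, ih (by omega), chain_step (by omega)]

theorem chain_ne {k t : ℕ} (ht : t < k) : chainG k t ≠ chainG k (t + 1) := by
  intro h
  have h1 : (chainG k (t + 1)).Adj ⟨5 * t + 5, by omega⟩ ⟨5 * t + 6, by omega⟩ := by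
    rw [chainG_adj]
    unfold chainAdj
    rw [mem_nb]
    push_cast
    omega
  rw [← h, chainG_adj] at h1
  have h2 := h1.2.1
  push_cast at h2
  omega

theorem wheel_lower (k : ℕ) : k ≤ maxTime wheel6 (5 * k + 2) := by
  refine le_trans ?_ (runTime_le_maxTime wheel6 (chainG k 0))
  apply le_runTime
  intro t ht
  rw [chain_proc (by omega), chain_proc (by omega)]
  exact chain_ne ht

end Pool.Agent.R792
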