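import Mathlib
import Pool.Agent.R792.RuleA

/-!
The fan: the running time for the wheel with a pendant edge at the hub is unbounded.
-/

namespace Pool.Agent.R792

open SimpleGraph

/-- The fan: the vertex `0` is joined to the path `1, 2, ..., m`. -/
def fan (m : ℕ) : SimpleGraph (Fin (m + 1)) where
  Adj a b := a ≠ b ∧ (a.val = 0 ∨ b.val = 0 ∨ a.val + 1 = b.val ∨ b.val + 1 = a.val)
  symm := ⟨by
    intro a b h
    refine ⟨h.1.symm, ?_⟩
    tauto⟩
  loopless := ⟨fun _ h => h.1 rfl⟩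

/-- All edges avoiding `0` have odd length at most `L`. -/
def Short {m : ℕ} (G : SimpleGraph (Fin (m + 1))) (L : ℕ) : Prop :=
  ∀ a b : Fin (m + 1), a.val ≠ 0 → b.val ≠ 0 → G.Adj a b →
    (a.val + b.val) % 2 = 1 ∧ a.val ≤ b.val + L ∧ b.val ≤ a.val + L

theorem fan_aux : ∀ i : Fin 6, i + 1 + 1 + 1 + 1 + 1 + 1 = i := by decide

theorem fan_aux2 : ∀ i : Fin 6, i + 1 ≠ i ∧ i + 1 + 1 ≠ i ∧ i + 1 + 1 + 1 ≠ i ∧
    i + 1 + 1 + 1 + 1 ≠ i ∧ i + 1 + 1 + 1 + 1 + 1 ≠ i := by decide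

theorem tri_aux {m : ℕ} (a b y u v : Fin (m + 1))
    (e1 : (y.val + u.val) % 2 = 1 ∨ (y = a ∧ u = b) ∨ (y = b ∧ u = a))
    (e2 : (y.val + v.val) % 2 = 1 ∨ (y = a ∧ v = b) ∨ (y = b ∧ v = a))
    (e3 : (u.val + v.val) % 2 = 1 ∨ (u = a ∧ v = b) ∨ (u = b ∧ v = a)) :
    (a = y ∨ a = u ∨ a = v) ∧ (b = y ∨ b = u ∨ b = v) := by
  rcases e1 with e1 | ⟨h1, h2⟩ | ⟨h1, h2⟩
  · rcases e2 with e2 | ⟨h1, h2⟩ | ⟨h1, h2⟩
    · rcases e3 with e3 | ⟨h1, h2⟩ | ⟨h1, h2⟩
      · omega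
      · exact ⟨Or.inr (Or.inl h1.symm), Or.inr (Or.inr h2.symm)⟩
      · exact ⟨Or.inr (Or.inr h2.symm), Or.inr (Or.inl h1.symm)⟩
    · exact ⟨Or.inl h1.symm, Or.inr (Or.inr h2.symm)⟩
    · exact ⟨Or.inr (Or.inr h2.symm), Or.inl h1.symm⟩
  · exact ⟨Or.inl h1.symm, Or.inr (Or.inl h2.symm)⟩
  · exact ⟨Or.inr (Or.inl h2.symm), Or.inl h1.symm⟩

theorem short_step {m : ℕ} {G : SimpleGraph (Fin (m + 1))} {L : ℕ}
    (hL : Short G L) : Short (bootStep wheelP G) (5 * L) := by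
  intro a b ha hb hab
  rw [bootStep_adj] at hab
  rcases hab with hab | ⟨hne, hn, hc⟩
  · have := hL a b ha hb hab
    omega
  rw [closes_wheelP_iff] at hc
  obtain ⟨y, r, p, hw, hp, hyp, hu⟩ := hc
  have ha0 : a ≠ 0 := fun h => ha (by rw [h]; rfl)
  have hb0 : b ≠ 0 := fun h => hb (by rw [h]; rfl)
  have hval : ∀ v : Fin (m + 1), v ≠ 0 → v.val ≠ 0 := by
    intro v hv h
    exact hv (Fin.ext h)
  by_cases hy : y = 0
  · -- the hub is the universal vertex
    have hrim : ∃ i, (r i = a ∧ r (i + 1) = b) ∨ (r i = b ∧ r (i + 1) = a) := by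
      rcases hu with (⟨i, ⟨h1, h2⟩ | ⟨h1, h2⟩⟩ | ⟨i, h⟩) | ⟨h1, h2⟩ | ⟨h1, h2⟩
      · exact absurd (h1.symm.trans hy) ha0
      · exact absurd (h1.symm.trans hy) hb0
      · exact ⟨i, h⟩
      · exact absurd (h1.symm.trans hy) ha0
      · exact absurd (h1.symm.trans hy) hb0
    obtain ⟨i, hi⟩ := hrim
    have hr0 : ∀ j, (r j).val ≠ 0 := fun j => hval _ (by rw [← hy]; exact hw.ne j)
    have hj : ∀ j, j ≠ i → ((r j).val + (r (j + 1)).val) % 2 = 1 ∧
        (r j).val ≤ (r (j + 1)).val + L ∧ (r (j + 1)).val ≤ (r j).val + L := by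
      intro j hji
      apply hL _ _ (hr0 _) (hr0 _)
      have h1 := hw.rim j
      rw [sup_edge_adj] at h1
      rcases h1 with h1 | ⟨_, ⟨h2, h3⟩ | ⟨h2, h3⟩⟩
      · exact h1
      · exfalso
        rcases hi with ⟨h4, h5⟩ | ⟨h4, h5⟩
        · exact hji (hw.inj (h2.trans h4.symm))
        · have e1 : j = i + 1 := hw.inj (h2.trans h5.symm)
          have e2 : j + 1 = i := hw.inj (h3.trans h4.symm)
          rw [e1] at e2
          exact (fan_aux2 i).2.1 e2
      · exfalso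
        rcases hi with ⟨h4, h5⟩ | ⟨h4, h5⟩
        · have e1 : j = i + 1 := hw.inj (h2.trans h5.symm)
          have e2 : j + 1 = i := hw.inj (h3.trans h4.symm)
          rw [e1] at e2
          exact (fan_aux2 i).2.1 e2
        · exact hji (hw.inj (h2.trans h4.symm))
    obtain ⟨n1, n2, n3, n4, n5⟩ := fan_aux2 i
    have h1 := hj (i + 1) n1
    have h2 := hj (i + 1 + 1) n2
    have h3 := hj (i + 1 + 1 + 1) n3
    have h4 := hj (i + 1 + 1 + 1 + 1) n4
    have h5 := hj (i + 1 + 1 + 1 + 1 + 1) n5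
    rw [fan_aux i] at h5
    rcases hi with ⟨h6, h7⟩ | ⟨h6, h7⟩
    · rw [← h6, ← h7]
      omega
    · rw [← h6, ← h7]
      omega
  · -- two triangles at `y` avoiding `0`
    exfalso
    obtain ⟨j, hj⟩ : ∃ j, r (j + 1) ≠ 0 ∧ r (j + 1 + 1) ≠ 0 ∧ r (j + 1 + 1 + 1) ≠ 0 ∧
        r (j + 1 + 1 + 1 + 1) ≠ 0 := by
      by_cases h : ∃ j, r j = 0
      · obtain ⟨j, hj⟩ := h
        obtain ⟨n1, n2, n3, n4, n5⟩ := fan_aux2 j
        refine ⟨j, ?_, ?_, ?_, ?_⟩ <;> (rw [← hj]; intro h)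
        · exact n1 (hw.inj h)
        · exact n2 (hw.inj h)
        · exact n3 (hw.inj h)
        · exact n4 (hw.inj h)
      · push Not at h
        exact ⟨0, h _, h _, h _, h _⟩
    obtain ⟨h1, h2, h3, h4⟩ := hj
    have hodd : ∀ u v, u ≠ 0 → v ≠ 0 → (G ⊔ edge a b).Adj u v →
        ((u.val + v.val) % 2 = 1 ∨ (u = a ∧ v = b) ∨ (u = b ∧ v = a)) := by
      intro u v hu hv huv
      rw [sup_edge_adj] at huv
      rcases huv with h | ⟨_, h⟩
      · exact Or.inl (hL u v (hval u hu) (hval v hv) h).1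
      · exact Or.inr h
    have e1 := hodd _ _ hy h1 (hw.spoke _)
    have e2 := hodd _ _ hy h2 (hw.spoke _)
    have e3 := hodd _ _ h1 h2 (hw.rim _)
    have e4 := hodd _ _ hy h3 (hw.spoke _)
    have e5 := hodd _ _ hy h4 (hw.spoke _)
    have e6 := hodd _ _ h3 h4 (hw.rim _)
    obtain ⟨n1, n2, n3, n4, n5⟩ := fan_aux2 j
    obtain ⟨m1, m2, m3, m4, m5⟩ := fan_aux2 (j + 1)
    obtain ⟨k1, k2, k3, k4, k5⟩ := fan_aux2 (j + 1 + 1)
    have d13 : r (j + 1) ≠ r (j + 1 + 1 + 1) := fun h => m2 (hw.inj h).symm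
    have d14 : r (j + 1) ≠ r (j + 1 + 1 + 1 + 1) := fun h => m3 (hw.inj h).symm
    have d23 : r (j + 1 + 1) ≠ r (j + 1 + 1 + 1) := fun h => k1 (hw.inj h).symm
    have d24 : r (j + 1 + 1) ≠ r (j + 1 + 1 + 1 + 1) := fun h => k2 (hw.inj h).symm
    have y1 := hw.ne (j + 1)
    have y2 := hw.ne (j + 1 + 1)
    have y3 := hw.ne (j + 1 + 1 + 1)
    have y4 := hw.ne (j + 1 + 1 + 1 + 1)
    generalize r (j + 1) = r1 at *
    generalize r (j + 1 + 1) = r2 at *
    generalize r (j + 1 + 1 + 1) = r3 at *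
    generalize r (j + 1 + 1 + 1 + 1) = r4 at *
    have t1 := tri_aux a b y r1 r2 e1 e2 e3
    have t2 := tri_aux a b y r3 r4 e4 e5 e6
    have hay : a = y := by
      rcases t1.1 with h | h | h
      · exact h
      · rcases t2.1 with h' | h' | h'
        · exact h'
        · exact absurd (h.symm.trans h') d13
        · exact absurd (h.symm.trans h') d14
      · rcases t2.1 with h' | h' | h'
        · exact h'
        · exact absurd (h.symm.trans h') d23
        · exact absurd (h.symm.trans h') d24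
    have hby : b = y := by
      rcases t1.2 with h | h | h
      · exact h
      · rcases t2.2 with h' | h' | h'
        · exact h'
        · exact absurd (h.symm.trans h') d13
        · exact absurd (h.symm.trans h') d14
      · rcases t2.2 with h' | h' | h'
        · exact h'
        · exact absurd (h.symm.trans h') d23
        · exact absurd (h.symm.trans h') d24
    exact hne (hay.trans hby.symm)

theorem fan_univ (m : ℕ) : Univ (fan m) 0 := by
  intro v hv
  exact ⟨hv.symm, Or.inl rfl⟩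

theorem fan_proc_univ (m t : ℕ) : Univ (bootProc wheelP (fan m) t) 0 :=
  (fan_univ m).mono (bootProc_mono wheelP (fan m) (Nat.zero_le t))

theorem fan_short (m t : ℕ) : Short (bootProc wheelP (fan m) t) (5 ^ t) := by
  induction t with
  | zero =>
    intro a b ha hb h
    rw [bootProc_zero] at h
    obtain ⟨h1, h2⟩ := h
    omega
  | succ t ih =>
    rw [bootProc_succ, pow_succ, mul_comm]
    exact short_step ih

/-- The process on the fan is not stable while `5 ^ t + 9 ≤ m`. -/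
theorem fan_ne {m t : ℕ} (ht : 5 ^ t + 9 ≤ m) :
    bootProc wheelP (fan m) t ≠ bootProc wheelP (fan m) (t + 1) := by
  intro hst
  have hpos : 0 < 5 ^ t := by positivity
  set G := bootProc wheelP (fan m) t with hG
  have hun : Univ G 0 := fan_proc_univ m t
  have hsh : Short G (5 ^ t) := fan_short m t
  have hcard : 8 ≤ Fintype.card (Fin (m + 1)) := by
    rw [Fintype.card_fin]; omega
  have hclose : ∀ u v, Cl5 (del G 0) u v → G.Adj u v := by
    intro u v h
    rw [hst, bootProc_succ]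
    exact ruleA hcard hun h
  have hpath : ∀ a b : Fin (m + 1), a.val ≠ 0 → a.val + 1 = b.val → G.Adj a b := by
    intro a b ha hab
    apply bootProc_mono wheelP (fan m) (Nat.zero_le t)
    refine ⟨?_, by omega⟩
    intro h
    rw [h] at hab
    omega
  -- an edge of maximal length
  let S : Set ℕ := {L | ∃ a b : Fin (m + 1), a.val ≠ 0 ∧ b.val = a.val + L ∧ G.Adj a b}
  have hSb : ∀ L ∈ S, L ≤ 5 ^ t := by
    rintro L ⟨a, b, ha, hb, hab⟩
    have := hsh a b ha (by omega) hab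
    omega
  have h1S : 1 ∈ S := ⟨⟨1, by omega⟩, ⟨2, by omega⟩, by simp, rfl, hpath _ _ (by simp) rfl⟩
  obtain ⟨L, hLS, hLmax⟩ : ∃ L ∈ S, ∀ L' ∈ S, L' ≤ L := by
    have hbdd : BddAbove S := ⟨5 ^ t, fun L hL => hSb L hL⟩
    exact ⟨sSup S, Nat.sSup_mem ⟨1, h1S⟩ hbdd, fun L' hL' => le_csSup hbdd hL'⟩
  have hL1 : 1 ≤ L := hLmax 1 h1S
  have hLt : L ≤ 5 ^ t := hSb L hLS
  obtain ⟨a, b, ha, hb, hab⟩ := hLS
  have ha0 : ∀ v : Fin (m + 1), v.val ≠ 0 → v ≠ 0 := by
    intro v hv h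
    apply hv
    rw [h]; rfl
  have hbm := b.isLt
  by_cases hcase : b.val + 4 ≤ m
  · have hnew : L + 4 ∈ S := by
      refine ⟨a, ⟨b.val + 4, by omega⟩, ha, by simp; omega, ?_⟩
      apply hclose
      refine ⟨b, ⟨b.val + 1, by omega⟩, ⟨b.val + 2, by omega⟩, ⟨b.val + 3, by omega⟩,
        ?_, ⟨hab, ha0 _ ha, ha0 _ (by omega)⟩,
        ⟨hpath _ _ (by omega) rfl, ha0 _ (by omega), ha0 _ (by simp)⟩,
        ⟨hpath _ _ (by simp) rfl, ha0 _ (by simp), ha0 _ (by simp)⟩,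
        ⟨hpath _ _ (by simp) rfl, ha0 _ (by simp), ha0 _ (by simp)⟩,
        ⟨hpath _ _ (by simp) rfl, ha0 _ (by simp), ha0 _ (by simp)⟩⟩
      simp only [List.nodup_cons, List.mem_cons, List.not_mem_nil, or_false, not_or, Fin.ext_iff]
      simp
      omega
    have := hLmax _ hnew
    omega
  · have hnew : L + 4 ∈ S := by
      refine ⟨⟨a.val - 4, by omega⟩, b, by simp; omega, by simp; omega, ?_⟩
      apply hclose
      apply Cl5.symm
      refine ⟨a, ⟨a.val - 1, by omega⟩, ⟨a.val - 2, by omega⟩, ⟨a.val - 3, by omega⟩,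
        ?_, ⟨hab.symm, ha0 _ (by omega), ha0 _ ha⟩,
        ⟨(hpath _ _ (by simp; omega) (by simp; omega)).symm, ha0 _ (by omega), ha0 _ (by simp; omega)⟩,
        ⟨(hpath _ _ (by simp; omega) (by simp; omega)).symm, ha0 _ (by simp; omega), ha0 _ (by simp; omega)⟩,
        ⟨(hpath _ _ (by simp; omega) (by simp; omega)).symm, ha0 _ (by simp; omega), ha0 _ (by simp; omega)⟩,
        ⟨(hpath _ _ (by simp; omega) (by simp; omega)).symm, ha0 _ (by simp; omega), ha0 _ (by simp; omega)⟩⟩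
      simp only [List.nodup_cons, List.mem_cons, List.not_mem_nil, or_false, not_or, Fin.ext_iff]
      simp
      omega
    have := hLmax _ hnew
    omega

theorem fan_lower (t : ℕ) : t + 1 ≤ maxTime wheelP (5 ^ t + 10) := by
  refine le_trans ?_ (runTime_le_maxTime wheelP (fan (5 ^ t + 9)))
  apply le_runTime
  intro s hs
  apply fan_ne
  have : 5 ^ s ≤ 5 ^ t := Nat.pow_le_pow_right (by norm_num) (by omega)
  omega

end Pool.Agent.R792
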