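import Mathlib
import Pool.Agent.R792.C6b

/-!
The upper bound on the running time for the wheel with a pendant edge at the hub.
-/

namespace Pool.Agent.R792

open SimpleGraph

variable {V : Type}

theorem IsWheel.mono {G G' : SimpleGraph V} {y : V} {r : Fin 6 → V} (h : IsWheel G y r)
    (hle : G ≤ G') : IsWheel G' y r :=
  ⟨h.inj, h.ne, fun i => hle (h.spoke i), fun i => hle (h.rim i)⟩

theorem sup_edge_le {G G' : SimpleGraph V} {a b : V} (h : G ≤ G') (hab : G'.Adj a b) :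
    G ⊔ edge a b ≤ G' := by
  intro x y hxy
  rw [sup_edge_adj] at hxy
  rcases hxy with hxy | ⟨_, ⟨rfl, rfl⟩ | ⟨rfl, rfl⟩⟩
  · exact h hxy
  · exact hab
  · exact hab.symm

/-- The hub of a wheel becomes universal in the next round. -/
theorem hub_univ [Fintype V] {G : SimpleGraph V} {y : V} {r : Fin 6 → V} (h : IsWheel G y r) :
    Univ (bootStep wheelP G) y := by
  intro v hv
  rw [bootStep_adj]
  by_cases hyv : G.Adj y v
  · exact Or.inl hyv
  right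
  refine ⟨hv.symm, hyv, ?_⟩
  rw [closes_wheelP_iff]
  refine ⟨y, r, v, h.mono le_sup_left, ?_, ?_, Or.inr (Or.inl ⟨rfl, rfl⟩)⟩
  · rintro i rfl
    exact hyv (h.spoke i)
  · rw [sup_edge_adj]
    exact Or.inr ⟨hv.symm, Or.inl ⟨rfl, rfl⟩⟩

theorem rim_path : ∀ i : Fin 6, i + 1 + 1 + 1 + 1 + 1 + 1 = i := by decide

theorem rim_ne : ∀ i : Fin 6, i + 1 ≠ i ∧ i + 1 + 1 ≠ i ∧ i + 1 + 1 + 1 ≠ i ∧
    i + 1 + 1 + 1 + 1 ≠ i ∧ i + 1 + 1 + 1 + 1 + 1 ≠ i := by decide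

/-- A new edge closes a path with five edges avoiding `x`, or there is a second hub. -/
theorem new_edge [Fintype V] {G : SimpleGraph V} {x a b : V} (hx : Univ G x) (hab : a ≠ b)
    (hn : ¬ G.Adj a b) (hc : Closes wheelP G a b) :
    Cl5 (del G x) a b ∨ ∃ y r, y ≠ x ∧ IsWheel (bootStep wheelP G) y r := by
  have hnew : (bootStep wheelP G).Adj a b := by
    rw [bootStep_adj]
    exact Or.inr ⟨hab, hn, hc⟩
  rw [closes_wheelP_iff] at hc
  obtain ⟨y, r, p, hw, hp, hyp, hu⟩ := hc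
  by_cases hy : y = x
  · left
    subst hy
    have ha : a ≠ y := by
      rintro rfl
      exact hn (hx b hab.symm)
    have hb : b ≠ y := by
      rintro rfl
      exact hn (hx a hab).symm
    have hrim : ∃ i, (r i = a ∧ r (i + 1) = b) ∨ (r i = b ∧ r (i + 1) = a) := by
      rcases hu with (⟨i, ⟨h1, h2⟩ | ⟨h1, h2⟩⟩ | ⟨i, h⟩) | ⟨h1, h2⟩ | ⟨h1, h2⟩
      · exact absurd h1.symm ha
      · exact absurd h1.symm hb
      · exact ⟨i, h⟩
      · exact absurd h1.symm ha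
      · exact absurd h1.symm hb
    obtain ⟨i, hi⟩ := hrim
    have hj : ∀ j, j ≠ i → (del G y).Adj (r j) (r (j + 1)) := by
      intro j hji
      refine ⟨?_, hw.ne _, hw.ne _⟩
      have h1 := hw.rim j
      rw [sup_edge_adj] at h1
      rcases h1 with h1 | ⟨_, ⟨h2, h3⟩ | ⟨h2, h3⟩⟩
      · exact h1
      · exfalso
        rcases hi with ⟨h4, h5⟩ | ⟨h4, h5⟩
        · exact hji (hw.inj (h2.trans h4.symm))
        · have e1 : j = i + 1 := hw.inj (h2.trans h5.symm)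
          have e2 : j + 1 = i := hw.inj (h3.trans h4.symm)
          rw [e1] at e2
          exact (rim_ne i).2.1 e2
      · exfalso
        rcases hi with ⟨h4, h5⟩ | ⟨h4, h5⟩
        · have e1 : j = i + 1 := hw.inj (h2.trans h5.symm)
          have e2 : j + 1 = i := hw.inj (h3.trans h4.symm)
          rw [e1] at e2
          exact (rim_ne i).2.1 e2
        · exact hji (hw.inj (h2.trans h4.symm))
    obtain ⟨n1, n2, n3, n4, n5⟩ := rim_ne i
    obtain ⟨m1, m2, m3, m4, m5⟩ := rim_ne (i + 1)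
    obtain ⟨k1, k2, k3, k4, k5⟩ := rim_ne (i + 1 + 1)
    obtain ⟨l1, l2, l3, l4, l5⟩ := rim_ne (i + 1 + 1 + 1)
    have h5 := hj (i + 1 + 1 + 1 + 1 + 1) n5
    rw [rim_path i] at h5
    have hcl : Cl5 (del G y) (r (i + 1)) (r i) :=
      cl5_mk (hj (i + 1) n1) (hj (i + 1 + 1) n2) (hj (i + 1 + 1 + 1) n3)
        (hj (i + 1 + 1 + 1 + 1) n4) h5
        (fun h => m2 (hw.inj h).symm) (fun h => m3 (hw.inj h).symm) (fun h => m4 (hw.inj h).symm)
        (fun h => n1 (hw.inj h)) (fun h => k2 (hw.inj h).symm) (fun h => k3 (hw.inj h).symm)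
        (fun h => n2 (hw.inj h)) (fun h => l2 (hw.inj h).symm) (fun h => n3 (hw.inj h))
        (fun h => n4 (hw.inj h))
    rcases hi with ⟨h6, h7⟩ | ⟨h6, h7⟩
    · rw [h6, h7] at hcl
      exact hcl.symm
    · rw [h6, h7] at hcl
      exact hcl
  · right
    exact ⟨y, r, hy, hw.mono (sup_edge_le (le_bootStep _ _) hnew)⟩

theorem wheel_of_unstable [Fintype V] {G : SimpleGraph V} (h : G ≠ bootStep wheelP G) :
    ∃ y r, IsWheel (bootStep wheelP G) y r := by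
  have hex : ∃ a b, (bootStep wheelP G).Adj a b ∧ ¬ G.Adj a b := by
    by_contra hcon
    push Not at hcon
    exact h (le_antisymm (le_bootStep _ _) (fun u w h => hcon u w h))
  obtain ⟨a, b, hab, hn⟩ := hex
  have hab' := hab
  rw [bootStep_adj] at hab'
  rcases hab' with h1 | ⟨_, _, hc⟩
  · exact absurd h1 hn
  · rw [closes_wheelP_iff] at hc
    obtain ⟨y, r, p, hw, -⟩ := hc
    exact ⟨y, r, hw.mono (sup_edge_le (le_bootStep _ _) hab)⟩

theorem hit_dec : ∀ i1 i2 : Fin 6, ∃ j k : Fin 6, j ≠ i1 ∧ j ≠ i2 ∧ j + 1 ≠ i1 ∧ j + 1 ≠ i2 ∧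
    k ≠ i1 ∧ k ≠ i2 ∧ k ≠ j ∧ k ≠ j + 1 := by decide

theorem hit_one {r : Fin 6 → V} (hr : Function.Injective r) (x : V) :
    ∃ i1, ∀ i, r i = x → i = i1 := by
  by_cases h : ∃ i, r i = x
  · obtain ⟨i1, h1⟩ := h
    exact ⟨i1, fun i hi => hr (hi.trans h1.symm)⟩
  · push Not at h
    exact ⟨0, fun i hi => absurd hi (h i)⟩

/-- A path on four vertices avoiding two given vertices. -/
def P4 (G : SimpleGraph V) (x1 x2 : V) : Prop :=
  ∃ v0 v1 v2 v3, G.Adj v0 v1 ∧ G.Adj v1 v2 ∧ G.Adj v2 v3 ∧ v0 ≠ v2 ∧ v0 ≠ v3 ∧ v1 ≠ v3 ∧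
    (v0 ≠ x1 ∧ v1 ≠ x1 ∧ v2 ≠ x1 ∧ v3 ≠ x1) ∧ (v0 ≠ x2 ∧ v1 ≠ x2 ∧ v2 ≠ x2 ∧ v3 ≠ x2)

theorem P4.swap {G : SimpleGraph V} {x1 x2 : V} (h : P4 G x1 x2) : P4 G x2 x1 := by
  obtain ⟨v0, v1, v2, v3, h1, h2, h3, h4, h5, h6, h7, h8⟩ := h
  exact ⟨v0, v1, v2, v3, h1, h2, h3, h4, h5, h6, h8, h7⟩

theorem p4_hub {G : SimpleGraph V} {x1 : V} {r : Fin 6 → V} (h : IsWheel G x1 r) (x2 : V) :
    P4 G x1 x2 := by
  obtain ⟨i, hi⟩ := hit_one h.inj x2
  obtain ⟨n1, n2, n3, n4, n5⟩ := rim_ne i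
  obtain ⟨m1, m2, m3, m4, m5⟩ := rim_ne (i + 1)
  obtain ⟨k1, k2, k3, k4, k5⟩ := rim_ne (i + 1 + 1)
  refine ⟨r (i + 1), r (i + 1 + 1), r (i + 1 + 1 + 1), r (i + 1 + 1 + 1 + 1), h.rim _, h.rim _,
    h.rim _, fun e => m2 (h.inj e).symm, fun e => m3 (h.inj e).symm, fun e => k2 (h.inj e).symm,
    ⟨h.ne _, h.ne _, h.ne _, h.ne _⟩, ?_⟩
  exact ⟨fun e => n1 (hi _ e), fun e => n2 (hi _ e), fun e => n3 (hi _ e), fun e => n4 (hi _ e)⟩

theorem p4_of_wheel {G : SimpleGraph V} {y : V} {r : Fin 6 → V} (h : IsWheel G y r)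
    (x1 x2 : V) : P4 G x1 x2 := by
  by_cases h1 : y = x1
  · subst h1
    exact p4_hub h x2
  by_cases h2 : y = x2
  · subst h2
    exact (p4_hub h x1).swap
  obtain ⟨i1, hi1⟩ := hit_one h.inj x1
  obtain ⟨i2, hi2⟩ := hit_one h.inj x2
  obtain ⟨j, k, e1, e2, e3, e4, e5, e6, e7, e8⟩ := hit_dec i1 i2
  refine ⟨r j, r (j + 1), y, r k, h.rim _, (h.spoke _).symm, h.spoke _, h.ne _,
    fun e => e7 (h.inj e).symm, fun e => e8 (h.inj e).symm, ?_, ?_⟩
  · exact ⟨fun e => e1 (hi1 _ e), fun e => e3 (hi1 _ e), h1, fun e => e5 (hi1 _ e)⟩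
  · exact ⟨fun e => e2 (hi2 _ e), fun e => e4 (hi2 _ e), h2, fun e => e6 (hi2 _ e)⟩

theorem exists_avoid [Fintype V] (hcard : 8 ≤ Fintype.card V) (a1 a2 a3 a4 a5 a6 a7 : V) :
    ∃ p, p ≠ a1 ∧ p ≠ a2 ∧ p ≠ a3 ∧ p ≠ a4 ∧ p ≠ a5 ∧ p ≠ a6 ∧ p ≠ a7 := by
  classical
  obtain ⟨p, hp⟩ : ∃ p, p ∉ ({a1, a2, a3, a4, a5, a6, a7} : Finset V) := by
    by_contra hcon
    push Not at hcon
    have h1 : (Finset.univ : Finset V) ⊆ {a1, a2, a3, a4, a5, a6, a7} := fun p _ => hcon p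
    have h2 := Finset.card_le_card h1
    rw [Finset.card_univ] at h2
    have h3 : ({a1, a2, a3, a4, a5, a6, a7} : Finset V).card ≤ 7 :=
      (Finset.card_insert_le _ _).trans (Nat.succ_le_succ Finset.card_le_six)
    omega
  simp only [Finset.mem_insert, Finset.mem_singleton, not_or] at hp
  exact ⟨p, hp⟩

/-- Two universal vertices and a path on four other vertices: complete after two rounds. -/
theorem complete_of_p4 [Fintype V] (hcard : 8 ≤ Fintype.card V) {G : SimpleGraph V} {x1 x2 : V}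
    (h1 : Univ G x1) (h2 : Univ G x2) (h12 : x1 ≠ x2) (hp : P4 G x1 x2) :
    bootStep wheelP (bootStep wheelP G) = ⊤ := by
  obtain ⟨v0, v1, v2, v3, c01, c12, c23, d02, d03, d13, ⟨a0, a1, a2, a3⟩, ⟨b0, b1, b2, b3⟩⟩ := hp
  have d01 := c01.ne
  have d12 := c12.ne
  have d23 := c23.ne
  have hle := le_bootStep wheelP G
  set G1 := bootStep wheelP G with hG1
  have u1 : Univ G1 x1 := h1.mono hle
  have u2 : Univ G1 x2 := h2.mono hle
  -- adjacency in `G` avoiding `x1`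
  have dl : ∀ {H : SimpleGraph V} {p q : V}, H.Adj p q → p ≠ x1 → q ≠ x1 → (del H x1).Adj p q :=
    fun h hp hq => ⟨h, hp, hq⟩
  have s0 : ∀ p, p ≠ x1 → p ≠ x2 → p ≠ v0 → p ≠ v1 → p ≠ v2 → p ≠ v3 → G1.Adj p v0 := by
    intro p p1 p2 p3 p4 p5 p6
    apply ruleA hcard h1
    exact cl5_mk (dl (h2 p p2).symm p1 h12.symm) (dl (h2 v3 b3) h12.symm a3) (dl c23.symm a3 a2)
      (dl c12.symm a2 a1) (dl c01.symm a1 a0) p6 p5 p4 p3 b2.symm b1.symm b0.symm d13.symm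
      d03.symm d02.symm
  have s3 : ∀ p, p ≠ x1 → p ≠ x2 → p ≠ v0 → p ≠ v1 → p ≠ v2 → p ≠ v3 → G1.Adj p v3 := by
    intro p p1 p2 p3 p4 p5 p6
    apply ruleA hcard h1
    exact cl5_mk (dl (h2 p p2).symm p1 h12.symm) (dl (h2 v0 b0) h12.symm a0) (dl c01 a0 a1)
      (dl c12 a1 a2) (dl c23 a2 a3) p3 p4 p5 p6 b1.symm b2.symm b3.symm d02 d03 d13
  have hle2 := le_bootStep wheelP G1
  set G2 := bootStep wheelP G1 with hG2
  have w1 : Univ G2 x1 := u1.mono hle2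
  have w2 : Univ G2 x2 := u2.mono hle2
  have t01 : G2.Adj v0 v1 := hle2 (hle c01)
  have t12 : G2.Adj v1 v2 := hle2 (hle c12)
  have t23 : G2.Adj v2 v3 := hle2 (hle c23)
  obtain ⟨p, p1, p2, p3, p4, p5, p6, -⟩ := exists_avoid hcard x1 x2 v0 v1 v2 v3 v3
  have sp0 := s0 p p1 p2 p3 p4 p5 p6
  have sp3 := s3 p p1 p2 p3 p4 p5 p6
  have t03 : G2.Adj v0 v3 := by
    apply ruleA hcard u1
    exact cl5_mk (dl (hle c01) a0 a1) (dl (hle c12) a1 a2) (dl (u2 v2 b2).symm a2 h12.symm)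
      (dl (u2 p p2) h12.symm p1) (dl sp3 p1 a3) d02 b0 p3.symm d03 b1 p4.symm d13 p5.symm
      d23 b3.symm
  have t02 : G2.Adj v0 v2 := by
    apply ruleA hcard u1
    exact (cl5_mk (dl (hle c23) a2 a3) (dl sp3.symm a3 p1) (dl (u2 p p2).symm p1 h12.symm)
      (dl (u2 v1 b1) h12.symm a1) (dl (hle c01.symm) a1 a0) p5.symm b2 d12.symm d02.symm b3
      d13.symm d03.symm p4 p3 b0.symm).symm
  have t13 : G2.Adj v1 v3 := by
    apply ruleA hcard u1
    exact cl5_mk (dl (hle c01.symm) a1 a0) (dl sp0.symm a0 p1) (dl (u2 p p2).symm p1 h12.symm)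
      (dl (u2 v2 b2) h12.symm a2) (dl (hle c23) a2 a3) p4.symm b1 d12 d13 b0 d02 d03 p5 p6
      b3.symm
  have o0 : ∀ p, p ≠ x1 → p ≠ x2 → p ≠ v0 → p ≠ v1 → p ≠ v2 → p ≠ v3 → G2.Adj p v0 :=
    fun p p1 p2 p3 p4 p5 p6 => hle2 (s0 p p1 p2 p3 p4 p5 p6)
  have o3 : ∀ p, p ≠ x1 → p ≠ x2 → p ≠ v0 → p ≠ v1 → p ≠ v2 → p ≠ v3 → G2.Adj p v3 :=
    fun p p1 p2 p3 p4 p5 p6 => hle2 (s3 p p1 p2 p3 p4 p5 p6)
  have o1 : ∀ p, p ≠ x1 → p ≠ x2 → p ≠ v0 → p ≠ v1 → p ≠ v2 → p ≠ v3 → G2.Adj p v1 := by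
    intro p p1 p2 p3 p4 p5 p6
    obtain ⟨q, q1, q2, q3, q4, q5, q6, q7⟩ := exists_avoid hcard x1 x2 v0 v1 v2 v3 p
    apply ruleA hcard u1
    exact cl5_mk (dl (s3 p p1 p2 p3 p4 p5 p6) p1 a3) (dl (u2 v3 b3).symm a3 h12.symm)
      (dl (u2 q q2) h12.symm q1) (dl (s0 q q1 q2 q3 q4 q5 q6) q1 a0) (dl (hle c01) a0 a1)
      p2 q7.symm p3 p4 q6.symm d03.symm d13.symm b0.symm b1.symm q4
  have o2 : ∀ p, p ≠ x1 → p ≠ x2 → p ≠ v0 → p ≠ v1 → p ≠ v2 → p ≠ v3 → G2.Adj p v2 := by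
    intro p p1 p2 p3 p4 p5 p6
    obtain ⟨q, q1, q2, q3, q4, q5, q6, q7⟩ := exists_avoid hcard x1 x2 v0 v1 v2 v3 p
    apply ruleA hcard u1
    exact cl5_mk (dl (s0 p p1 p2 p3 p4 p5 p6) p1 a0) (dl (u2 v0 b0).symm a0 h12.symm)
      (dl (u2 q q2) h12.symm q1) (dl (s3 q q1 q2 q3 q4 q5 q6) q1 a3) (dl (hle c23.symm) a3 a2)
      p2 q7.symm p6 p5 q3.symm d03 d02 b3.symm b2.symm q5
  have oo : ∀ p, p ≠ x1 → p ≠ x2 → p ≠ v0 → p ≠ v1 → p ≠ v2 → p ≠ v3 →
      ∀ q, q ≠ x1 → q ≠ x2 → q ≠ v0 → q ≠ v1 → q ≠ v2 → q ≠ v3 → p ≠ q → G2.Adj p q := by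
    intro p p1 p2 p3 p4 p5 p6 q q1 q2 q3 q4 q5 q6 hpq
    apply ruleA hcard u1
    exact cl5_mk (dl (s3 p p1 p2 p3 p4 p5 p6) p1 a3) (dl (u2 v3 b3).symm a3 h12.symm)
      (dl (u2 v1 b1) h12.symm a1) (dl (hle c01.symm) a1 a0)
      (dl (s0 q q1 q2 q3 q4 q5 q6).symm a0 q1) p2 p4 p3 hpq d13.symm d03.symm q6.symm
      b0.symm q2.symm q4.symm
  rw [eq_top_iff]
  intro z w hzw
  rw [top_adj] at hzw
  by_cases z1 : z = x1
  · rw [z1]; exact w1 w (fun e => hzw (z1.trans e.symm))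
  by_cases z2 : z = x2
  · rw [z2]; exact w2 w (fun e => hzw (z2.trans e.symm))
  by_cases y1 : w = x1
  · rw [y1]; exact (w1 z z1).symm
  by_cases y2 : w = x2
  · rw [y2]; exact (w2 z z2).symm
  by_cases z3 : z = v0
  · subst z3
    by_cases y4 : w = v1
    · subst y4; exact t01
    by_cases y5 : w = v2
    · subst y5; exact t02
    by_cases y6 : w = v3
    · subst y6; exact t03
    exact (o0 w y1 y2 hzw.symm y4 y5 y6).symm
  by_cases z4 : z = v1
  · subst z4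
    by_cases y3 : w = v0
    · subst y3; exact t01.symm
    by_cases y5 : w = v2
    · subst y5; exact t12
    by_cases y6 : w = v3
    · subst y6; exact t13
    exact (o1 w y1 y2 y3 hzw.symm y5 y6).symm
  by_cases z5 : z = v2
  · subst z5
    by_cases y3 : w = v0
    · subst y3; exact t02.symm
    by_cases y4 : w = v1
    · subst y4; exact t12.symm
    by_cases y6 : w = v3
    · subst y6; exact t23
    exact (o2 w y1 y2 y3 y4 hzw.symm y6).symm
  by_cases z6 : z = v3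
  · subst z6
    by_cases y3 : w = v0
    · subst y3; exact t03.symm
    by_cases y4 : w = v1
    · subst y4; exact t13.symm
    by_cases y5 : w = v2
    · subst y5; exact t23.symm
    exact (o3 w y1 y2 y3 y4 y5 hzw.symm).symm
  by_cases y3 : w = v0
  · subst y3; exact o0 z z1 z2 z3 z4 z5 z6
  by_cases y4 : w = v1
  · subst y4; exact o1 z z1 z2 z3 z4 z5 z6
  by_cases y5 : w = v2
  · subst y5; exact o2 z z1 z2 z3 z4 z5 z6
  by_cases y6 : w = v3
  · subst y6; exact o3 z z1 z2 z3 z4 z5 z6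
  exact oo z z1 z2 z3 z4 z5 z6 w y1 y2 y3 y4 y5 y6 hzw

theorem bootStep_top [Fintype V] {W : Type} (H : SimpleGraph W) :
    bootStep H (⊤ : SimpleGraph V) = ⊤ := by
  rw [eq_top_iff]
  exact le_bootStep _ _

/-- Two universal vertices: the process ends within three more rounds. -/
theorem two_univ [Fintype V] (hcard : 8 ≤ Fintype.card V) {G : SimpleGraph V} {t : ℕ} {x1 x2 : V}
    (h1 : Univ (bootProc wheelP G t) x1) (h2 : Univ (bootProc wheelP G t) x2) (h12 : x1 ≠ x2) :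
    runTime wheelP G ≤ t + 3 := by
  by_cases hst : bootProc wheelP G t = bootProc wheelP G (t + 1)
  · exact (runTime_le hst).trans (by omega)
  have hw : ∃ y r, IsWheel (bootProc wheelP G (t + 1)) y r := by
    rw [bootProc_succ] at hst ⊢
    exact wheel_of_unstable hst
  obtain ⟨y, r, hw⟩ := hw
  have hle : bootProc wheelP G t ≤ bootProc wheelP G (t + 1) :=
    bootProc_mono wheelP G (Nat.le_succ t)
  have htop := complete_of_p4 hcard (h1.mono hle) (h2.mono hle) h12 (p4_of_wheel hw x1 x2)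
  rw [← bootProc_succ, ← bootProc_succ] at htop
  apply runTime_le
  have e : bootProc wheelP G (t + 3) = ⊤ := htop
  rw [bootProc_succ _ _ (t + 3), e, bootStep_top]

theorem eq_of_del_eq {G G' : SimpleGraph V} {x : V} (h : Univ G x) (h' : Univ G' x)
    (hd : del G x = del G' x) : G = G' := by
  ext a b
  by_cases ha : a = x
  · subst ha
    by_cases hb : b = a
    · subst hb
      exact ⟨fun h => absurd rfl h.ne, fun h => absurd rfl h.ne⟩
    · exact ⟨fun _ => h' b hb, fun _ => h b hb⟩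
  by_cases hb : b = x
  · subst hb
    exact ⟨fun _ => (h' a ha).symm, fun _ => (h a ha).symm⟩
  have e : (del G x).Adj a b ↔ (del G' x).Adj a b := by rw [hd]
  rw [del_adj, del_adj] at e
  tauto

theorem upper_run [Fintype V] (hcard : 8 ≤ Fintype.card V) {i : ℕ}
    (hi : Fintype.card V ≤ 5 ^ i) (G : SimpleGraph V) : runTime wheelP G ≤ i + 43 := by
  by_cases h0 : bootProc wheelP G 0 = bootProc wheelP G (0 + 1)
  · exact (runTime_le h0).trans (by omega)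
  have hw : ∃ x r, IsWheel (bootProc wheelP G (0 + 1)) x r := by
    rw [bootProc_succ] at h0 ⊢
    exact wheel_of_unstable h0
  obtain ⟨x, r0, hw⟩ := hw
  have hx2 : Univ (bootProc wheelP G 2) x := by
    have := hub_univ hw
    rw [← bootProc_succ] at this
    exact this
  have hx : ∀ t, 2 ≤ t → Univ (bootProc wheelP G t) x :=
    fun t ht => hx2.mono (bootProc_mono wheelP G ht)
  by_cases hB : ∃ t, 2 ≤ t ∧ t ≤ i + 38 ∧ ∃ y r, y ≠ x ∧ IsWheel (bootProc wheelP G (t + 1)) y r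
  · obtain ⟨t, ht2, hts, y, r, hyx, hwy⟩ := hB
    have hy : Univ (bootProc wheelP G (t + 2)) y := by
      have := hub_univ hwy
      rw [← bootProc_succ] at this
      exact this
    exact (two_univ hcard hy (hx (t + 2) (by omega)) hyx).trans (by omega)
  · have hstep : ∀ t, 2 ≤ t → t ≤ i + 38 →
        del (bootProc wheelP G (t + 1)) x = c6Step (del (bootProc wheelP G t) x) := by
      intro t ht2 hts
      apply le_antisymm
      · intro a b hab
        rw [del_adj, bootProc_succ, bootStep_adj] at hab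
        obtain ⟨h1 | ⟨h1, h2, h3⟩, ha, hb⟩ := hab
        · exact Or.inl ⟨h1, ha, hb⟩
        · rcases new_edge (hx t ht2) h1 h2 h3 with h4 | ⟨y, r, hyx, hwy⟩
          · exact Or.inr h4
          · exfalso
            apply hB
            refine ⟨t, ht2, hts, y, r, hyx, ?_⟩
            rw [bootProc_succ]
            exact hwy
      · rw [bootProc_succ]
        exact c6_le_del_step hcard (hx t ht2)
    have hproc : ∀ j, j ≤ i + 37 →
        del (bootProc wheelP G (2 + j)) x = c6Proc (del (bootProc wheelP G 2) x) j := by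
      intro j
      induction j with
      | zero => intro _; rfl
      | succ j ih =>
        intro hj
        rw [← add_assoc, hstep (2 + j) (by omega) (by omega), ih (by omega), c6Proc_succ]
    have hst := c6_stable (del (bootProc wheelP G 2) x) hi
    rw [← hproc (i + 36) (by omega), ← hproc (i + 36 + 1) (by omega)] at hst
    have heq := eq_of_del_eq (hx _ (by omega)) (hx _ (by omega)) hst
    have : bootProc wheelP G (2 + (i + 36)) = bootProc wheelP G (2 + (i + 36) + 1) := heq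
    exact (runTime_le this).trans (by omega)

theorem pendant_upper {n i : ℕ} (hn : 8 ≤ n) (hi : n ≤ 5 ^ i) : maxTime wheelP n ≤ i + 43 := by
  apply maxTime_le
  intro G
  apply upper_run
  · rw [Fintype.card_fin]; exact hn
  · rw [Fintype.card_fin]; exact hi

end Pool.Agent.R792
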